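import Pool.Agent.MP_082264_lc.Reduction

/-! Names, patterns and interfaces for the robust reduction (open and closed convex sets). -/

set_option autoImplicit false

namespace Pool.Agent.MP_082264_lc.Rb

open Set Function

deriving instance Countable for Rule

/-- A homology: its vertex and a label. -/
abbrev Hm := Fin 3 × Option (Option Co)

/-- Covers of segments. -/
inductive Cv : Type
  | v (i : Fin 3) | w (h : Hm) | m (e : Bool)
  deriving Countable

/-- The sets of the frame. -/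
inductive Fx : Type
  | A (i : Fin 3) | A' (i : Fin 3) | V (i : Fin 3) | W (h : Hm) | D | D' (h : Hm)
  | L (c : Cv) (j : Fin 3) | Lx (e : Bool) | H (j : Fin 4) | Y | Wc
  deriving Countable

/-- Nodes: predicates, rules, tests, the start set, the input chain and two side points. -/
inductive Nd (ι : Type) : Type
  | pr (k : ι) | ru (r : Rule ι) | ts (j : Option (Option Co)) | st | inp (j : ℕ) | m (e : Bool)
  deriving Countable

/-- Names of all convex sets. -/
inductive Nm (ι : Type) : Type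
  | fx (a : Fx) | X (s : Nd ι) (u : List Hm) | Z (s : Nd ι) (u : List Hm)
  deriving Countable

/-- No point lies in all sets of the first list and outside all sets of the second list. -/
def Fb {N F : Type} (X : N → Set F) (p : Pat N) : Prop :=
  ∀ x, (∀ a ∈ p.1, x ∈ X a) → ∃ b ∈ p.2, x ∈ X b

variable {ι : Type}

abbrev K (s : Nd ι) : Nm ι := .Z s []
abbrev D : Nm ι := .fx .D
abbrev V (i : Fin 3) : Nm ι := .fx (.V i)

def covP (c : Cv) (P Q R : Nm ι) : List (Pat (Nm ι)) :=
  [([P], [.fx (.L c 0)]), ([Q], [.fx (.L c 0)]),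
    ([.fx (.L c 0)], [.fx (.L c 1), .fx (.L c 2)]), ([P], [.fx (.L c 1)]), ([Q], [.fx (.L c 2)]),
    ([.fx (.L c 1), .fx (.L c 2)], [R]), ([P, R], []), ([Q, R], [])]

def imgP (s : Nd ι) : List Hm → List (Pat (Nm ι))
  | [] => []
  | h :: u => ([.Z s u, D], [.X s (h :: u)]) :: ([.fx (.A h.1)], [.X s (h :: u)]) ::
      ([.X s (h :: u), .fx (.D' h)], [.Z s (h :: u)]) :: ([.fx (.A' h.1)], [.Z s (h :: u)]) ::
      imgP s u

def hullP (s : Nd ι) (u : List Hm) (d : Nm ι) : List (Pat (Nm ι)) :=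
  ([.Z s u, D], [d]) :: imgP s u

/-- One generator: `some c` for the counter `c`, `none` for the free factor of the clock. -/
def gw (c : Option Co) : List Hm := [(1, some c), (2, some c)]

/-- The clock. -/
def tw : List Hm := gw none ++ (List.finRange 6).flatMap fun d => gw (some d)

/-- The clock divided by the generator of the counter `c`. -/
def bw (c : Co) : List Hm := gw none ++ ((List.finRange 6).erase c).flatMap fun d => gw (some d)

/-- Generators of the grid: `some c` for a counter, `none` for the clock. -/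
def ew : Option Co → List Hm
  | none => tw
  | some c => gw (some c)

def hp : List Hm := [(0, none), (1, none)]

def hn : List Hm := [(0, some none), (0, none), (1, none)]

def head : Rule ι → ι
  | .base j => j
  | .up _ _ j => j
  | .down _ _ j => j
  | .inter _ _ j => j

def prems : Rule ι → List ι
  | .base _ => []
  | .up _ i _ => [i]
  | .down _ i _ => [i]
  | .inter i l _ => [i, l]

def body : Rule ι → List (Nd ι × List Hm)
  | .base _ => (List.finRange 6).map fun c => (.ts none, gw (some c))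
  | .up c i _ => [(.ts (some (some c)), []), (.ts (some none), []), (.pr i, gw (some c) ++ tw)]
  | .down c i _ => [(.ts (some none), []), (.pr i, bw c)]
  | .inter i l _ => [(.ts (some none), []), (.pr i, tw), (.pr l, tw)]

noncomputable def all (α : Type) [Fintype α] : List α := (Finset.univ : Finset α).toList

theorem mem_all {α : Type} [Fintype α] (a : α) : a ∈ all α := by simp [all]

noncomputable def frameP : List (Pat (Nm ι)) :=
  (all (Fin 3)).flatMap (fun i => ([V i], [D]) ::
    covP (.v i) (.fx (.A i)) (.fx (.A' i)) (V i)) ++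
  (all Hm).flatMap (fun h => ([.fx (.W h)], [.fx (.D' h)]) :: ([V (h.1 + 1)], [.fx (.D' h)]) ::
    ([V (h.1 + 2)], [.fx (.D' h)]) :: covP (.w h) (.fx (.A h.1)) (V h.1) (.fx (.W h))) ++
  covP (.m false) (V 0) (V 1) (K (.m false)) ++ covP (.m true) (V 1) (V 2) (K (.m true)) ++
  [([V 2], [.fx (.Lx false)]), ([K (.m false)], [.fx (.Lx false)]),
    ([V 0], [.fx (.Lx true)]), ([K (.m true)], [.fx (.Lx true)]),
    ([.fx (.Lx false), .fx (.Lx true)], [K (.inp 0)])]

def chkP (j : Fin 4) (e : Bool) (i : Fin 3) (u : List Hm) : List (Pat (Nm ι)) :=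
  ([K (.m e)], [.fx (.H j)]) :: ([V i], [.fx (.H j)]) :: ([.Z (.m e) u, D, .fx (.H j)], []) ::
    imgP (.m e) u

def checkP : List (Pat (Nm ι)) :=
  chkP 0 false 0 (hp ++ tw) ++ chkP 1 false 1 (hn ++ tw) ++ chkP 2 true 2 (hp ++ tw) ++
    chkP 3 true 1 tw

noncomputable def testP : List (Pat (Nm ι)) :=
  (all (Option (Option Co))).flatMap fun j => ([K (.inp 0)], [K (.ts j)]) ::
    ((all (Option Co)).filter (fun e => j ≠ some e)).flatMap fun e =>
      hullP (.ts j) (ew e) (K (.ts j))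

def preds (R : List (Rule ι)) (o : ι) : List ι := o :: R.flatMap prems

open Classical in
noncomputable def hornP (R : List (Rule ι)) (o : ι) : List (Pat (Nm ι)) :=
  (preds R o).map (fun k => (D :: K (.ts none) ::
    (R.filter (fun r => head r = k)).map (fun r => K (.ru r)), [K (.pr k)])) ++
  R.flatMap fun r => (body r).flatMap fun q => hullP q.1 q.2 (K (.ru r))

def startP (o : ι) : List (Pat (Nm ι)) :=
  hullP .st hp (.fx .Y) ++ hullP .st hn (.fx .Y) ++
  [([V 2], [.fx .Y]), ([.fx .Y, K (.pr o), D], [K .st]), ([D], [K .st, .fx .Wc]),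
    ([.fx .Wc, V 2], [])]

noncomputable def fixedP (R : List (Rule ι)) (o : ι) : List (Pat (Nm ι)) :=
  frameP ++ checkP ++ testP ++ hornP R o ++ startP o

def stepP (j : ℕ) : List (Pat (Nm ι)) := hullP (.inp j) (gw (some 0)) (K (.inp (j + 1)))

def lastP (n : ℕ) : Pat (Nm ι) := ([K (.inp n), K .st], [])

/-- All patterns for the input `n`. -/
noncomputable def pats (R : List (Rule ι)) (o : ι) (n : ℕ) : List (Pat (Nm ι)) :=
  fixedP R o ++ ((List.range n).flatMap stepP ++ [lastP n])

/-- The sets that have to be nonempty. -/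
def reqs : List (Nm ι) :=
  [.fx (.A 0), .fx (.A 1), .fx (.A 2), .fx (.A' 0), .fx (.A' 1), .fx (.A' 2)]

/-- A pattern that holds strictly, or holds and respects the rank. -/
def Stable {N : Type} (C : N → Set E) (ρ : N → ℕ) (p : Pat N) : Prop :=
  p.1 ≠ [] ∧ ((∀ x, (∀ a ∈ p.1, x ∈ C a) → ‖x‖ < 10 ∧ ∃ b ∈ p.2, x ∈ interior (C b)) ∨
    (Fb C p ∧ ∀ a ∈ p.1, ∀ b ∈ p.2, ρ a < ρ b))

/-- Soundness in any real normed space. -/
def SoundStmt : Prop :=
  ∀ (ι : Type) (R : List (Rule ι)) (o : ι) (n : ℕ) (F : Type) [NormedAddCommGroup F]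
    [NormedSpace ℝ F] (X : Nm ι → Set F), (∀ a, Convex ℝ (X a)) →
    ((∀ a, IsOpen (X a)) ∨ ∀ a, IsClosed (X a)) → (∀ p ∈ pats R o n, Fb X p) →
    (∀ r ∈ reqs, (X r).Nonempty) → ∀ S, Model R S → update (fun _ => 0) 0 n ∈ S o

/-- The closed model. -/
def ModelStmt : Prop :=
  ∀ (ι : Type) (R : List (Rule ι)) (o : ι) (n : ℕ),
    (∀ S, Model R S → update (fun _ => 0) 0 n ∈ S o) →
    ∃ (C : Nm ι → Set E) (ρ : Nm ι → ℕ), (∀ a, Convex ℝ (C a) ∧ IsClosed (C a)) ∧
      (∀ p ∈ pats R o n, Stable C ρ p) ∧ ∀ r ∈ reqs, ∃ x ∈ C r, ‖x‖ < 10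

/-- Thickening: the sets named in `T` get the same code as their interiors. -/
def ThickStmt : Prop :=
  ∀ (N : Type) (F : List (Pat N)) (Q T : List N) (C : N → Set E) (ρ : N → ℕ),
    (∀ a, Convex ℝ (C a) ∧ IsClosed (C a)) → (∀ p ∈ F, Stable C ρ p) →
    (∀ r ∈ Q, ∃ x ∈ C r, ‖x‖ < 10) →
    ∃ X : N → Set E, (∀ a, Convex ℝ (X a) ∧ IsCompact (X a)) ∧ (∀ p ∈ F, Fb X p) ∧
      (∀ r ∈ Q, (X r).Nonempty) ∧
      (∀ x, ∃ y, ∀ a ∈ T, x ∈ X a ↔ y ∈ interior (X a)) ∧
      (∀ y, ∃ x, ∀ a ∈ T, x ∈ X a ↔ y ∈ interior (X a))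

end Pool.Agent.MP_082264_lc.Rb
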