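import Pool.Agent.MP_082264_lc.Reduction

/-!
From pattern systems which are solvable exactly when a machine halts to the undecidability of
every class of codes between the two notions of realizability (bounded search over all codes).
-/

set_option autoImplicit false

namespace Pool.Agent.MP_082264_lc.Rb

open Set Function

/-- No point lies in all sets of the first list and outside all sets of the second list. -/
def ForbG {α N : Type} (X : N → Set α) (p : Pat N) : Prop :=
  ∀ x, (∀ a ∈ p.1, x ∈ X a) → ∃ b ∈ p.2, x ∈ X b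

/-- The listed words are exactly the intersection patterns of the family. -/
def IsCode {α : Type} (X : ℕ → Set α) (C : List (List ℕ)) : Prop :=
  {S : Set ℕ | ∃ x : α, S = {i | x ∈ X i}} = {S : Set ℕ | ∃ l ∈ C, S = {i | i ∈ l}}

/-- Two families have the same intersection patterns. -/
def SameCode {α N : Type} (X Y : N → Set α) : Prop :=
  (∀ x, ∃ y, ∀ i, x ∈ X i ↔ y ∈ Y i) ∧ ∀ y, ∃ x, ∀ i, x ∈ X i ↔ y ∈ Y i

/-- Pattern systems which are solvable exactly when the computation halts. -/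
def PatStmt : Prop :=
  ∀ f : ℕ →. ℕ, Nat.Partrec f → ∃ (F : ℕ → List (Pat ℕ)) (Q : List ℕ), Primrec F ∧ ∀ n,
    (∀ (d : ℕ) (X : ℕ → Set (EuclideanSpace ℝ (Fin d))), (∀ i, Convex ℝ (X i)) →
      ((∀ i, IsOpen (X i)) ∨ ∀ i, IsClosed (X i)) → (∀ p ∈ F n, ForbG X p) →
      (∀ r ∈ Q, (X r).Nonempty) → (f n).Dom) ∧
    ((f n).Dom → ∃ X : ℕ → Set E, (∀ i, Convex ℝ (X i) ∧ IsCompact (X i)) ∧
      SameCode X (fun i => interior (X i)) ∧ (∀ p ∈ F n, ForbG X p) ∧ ∀ r ∈ Q, (X r).Nonempty)

theorem of_good {α : Type} {X : ℕ → Set α} {C : List (List ℕ)} (hX : IsCode X C)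
    {F : List (Pat ℕ)} {Q : List ℕ} (h : Good F Q C) :
    (∀ p ∈ F, ForbG X p) ∧ ∀ r ∈ Q, (X r).Nonempty := by
  obtain ⟨h1, h2⟩ := h
  unfold IsCode at hX
  refine ⟨fun p hp x hx => ?_, fun r hr => ?_⟩
  · obtain ⟨l, hl, e⟩ : {i | x ∈ X i} ∈ {S : Set ℕ | ∃ l ∈ C, S = {i | i ∈ l}} :=
      hX ▸ ⟨x, rfl⟩
    have e' : ∀ i, x ∈ X i ↔ i ∈ l := Set.ext_iff.1 e
    obtain ⟨b, hb, hb'⟩ := h1 p hp l hl (fun a ha => (e' a).1 (hx a ha))
    exact ⟨b, hb, (e' b).2 hb'⟩
  · obtain ⟨l, hl, hr'⟩ := h2 r hr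
    obtain ⟨x, e⟩ : {i | i ∈ l} ∈ {S : Set ℕ | ∃ x : α, S = {i | x ∈ X i}} :=
      hX ▸ ⟨l, hl, rfl⟩
    exact ⟨x, (Set.ext_iff.1 e r).1 hr'⟩

theorem SameCode.isCode {α : Type} {X Y : ℕ → Set α} (h : SameCode X Y) {C : List (List ℕ)}
    (hX : IsCode X C) : IsCode Y C := by
  unfold IsCode at hX ⊢
  rw [← hX]
  ext S
  constructor
  · rintro ⟨y, rfl⟩
    obtain ⟨x, hx⟩ := h.2 y
    exact ⟨x, Set.ext fun i => (hx i).symm⟩
  · rintro ⟨x, rfl⟩
    obtain ⟨y, hy⟩ := h.1 x
    exact ⟨y, Set.ext fun i => hy i⟩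

/-- The code of the first `N` sets of a solution is one of the finitely many codes on `N`
indices, and it is good. -/
theorem exists_code {α : Type} (X : ℕ → Set α) {F : List (Pat ℕ)} {Q : List ℕ} {N : ℕ}
    (hN : (∀ p ∈ F, ∀ b ∈ p.2, b < N) ∧ ∀ r ∈ Q, r < N) (hF : ∀ p ∈ F, ForbG X p)
    (hQ : ∀ r ∈ Q, (X r).Nonempty) :
    ∃ C ∈ (List.range N).sublists'.sublists', (∀ l ∈ C, ∀ i ∈ l, i < N) ∧
      IsCode (fun i => if i < N then X i else ∅) C ∧ Good F Q C := by
  classical
  let C := (List.range N).sublists'.filter (fun l => ∃ x : α, ∀ i, i ∈ l ↔ i < N ∧ x ∈ X i)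
  have hC : ∀ l ∈ C, ∃ x : α, ∀ i, i ∈ l ↔ i < N ∧ x ∈ X i := fun l hl => by
    simpa using (List.mem_filter.1 hl).2
  have hC' : ∀ x : α, ∃ l ∈ C, ∀ i, i ∈ l ↔ i < N ∧ x ∈ X i := fun x => by
    have : ∀ i, i ∈ (List.range N).filter (fun i => x ∈ X i) ↔ i < N ∧ x ∈ X i := by simp
    exact ⟨_, List.mem_filter.2 ⟨List.mem_sublists'.2 List.filter_sublist,
      decide_eq_true ⟨x, this⟩⟩, this⟩
  refine ⟨C, List.mem_sublists'.2 List.filter_sublist, fun l hl i hi => ?_, ?_,
    fun p hp l hl ha => ?_, fun r hr => ?_⟩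
  · obtain ⟨x, hx⟩ := hC l hl
    exact ((hx i).1 hi).1
  · unfold IsCode
    ext S
    constructor
    · rintro ⟨x, rfl⟩
      obtain ⟨l, hl, hx⟩ := hC' x
      exact ⟨l, hl, Set.ext fun i => by simp [hx]⟩
    · rintro ⟨l, hl, rfl⟩
      obtain ⟨x, hx⟩ := hC l hl
      exact ⟨x, Set.ext fun i => by simp [hx]⟩
  · obtain ⟨x, hx⟩ := hC l hl
    obtain ⟨b, hb, hb'⟩ := hF p hp x (fun a h => ((hx a).1 (ha a h)).2)
    exact ⟨b, hb, (hx b).2 ⟨hN.1 p hp b hb, hb'⟩⟩
  · obtain ⟨x, hx⟩ := hQ r hr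
    obtain ⟨l, hl, h⟩ := hC' x
    exact ⟨l, hl, (h r).2 ⟨hN.2 r hr, hx⟩⟩

theorem primrec_sublists' {β : Type} [Primcodable β] :
    Primrec fun l : List β => l.sublists' := by
  have h : Primrec fun l : List β =>
      l.foldr (fun a (L : List (List β)) => L ++ L.map (fun s => a :: s)) [[]] :=
    Primrec.list_foldr (h := fun _ (q : β × List (List β)) => q.2 ++ q.2.map (fun s => q.1 :: s))
      Primrec.id (Primrec.const [[]])
      (Primrec.list_append.comp (Primrec.snd.comp Primrec.snd)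
        (Primrec.list_map (Primrec.snd.comp Primrec.snd)
          (Primrec.list_cons.comp (Primrec.fst.comp (Primrec.snd.comp Primrec.fst))
            Primrec.snd).to₂)).to₂
  refine h.of_eq fun l => ?_
  induction l with
  | nil => simp
  | cons a l ih => rw [List.foldr_cons, ih, List.sublists'_cons]

theorem primrec_sum : Primrec fun l : List ℕ => l.sum := by
  have h : Primrec fun l : List ℕ => l.foldr (fun a s => a + s) 0 :=
    Primrec.list_foldr (h := fun _ (q : ℕ × ℕ) => q.1 + q.2) Primrec.id (Primrec.const 0)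
      (Primrec.nat_add.comp (Primrec.fst.comp Primrec.snd) (Primrec.snd.comp Primrec.snd)).to₂
  refine h.of_eq fun l => ?_
  induction l with
  | nil => simp
  | cons a l ih => rw [List.foldr_cons, ih, List.sum_cons]

/-- Bounded search with a computable test. -/
theorem computable_exists_mem {α β : Type} [Primcodable α] [Primcodable β] [Inhabited β]
    {L : α → List β} (hL : Primrec L) {R : α → β → Prop}
    (h : ComputablePred fun p : α × β => R p.1 p.2) : ComputablePred fun a => ∃ b ∈ L a, R a b := by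
  classical
  have h1 : Computable fun a => Nat.rec (motive := fun _ => Bool) false
      (fun k s => s || decide (R a ((L a).getD k default))) (L a).length := by
    refine Computable.nat_rec (h := fun a (q : ℕ × Bool) =>
        q.2 || decide (R a ((L a).getD q.1 default)))
      (Primrec.list_length.comp hL).to_comp (Computable.const false) ?_
    exact (Primrec.or.to_comp.comp (Computable.snd.comp Computable.snd)
      (h.decide.comp (Computable.fst.pair ((Primrec.list_getD default).comp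
        (hL.comp Primrec.fst) (Primrec.fst.comp Primrec.snd)).to_comp))).to₂
  have key : ∀ a m, Nat.rec (motive := fun _ => Bool) false
      (fun k s => s || decide (R a ((L a).getD k default))) m = true ↔
      ∃ k < m, R a ((L a).getD k default) := by
    intro a m
    induction m with
    | zero => simp
    | succ m ih =>
      rw [Nat.exists_lt_succ_right, ← ih]
      simp
  refine Computable.computablePred (h1.of_eq fun a => ?_)
  rw [Bool.eq_iff_iff, key, decide_eq_true_iff]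
  constructor
  · rintro ⟨k, hk, hR⟩
    exact ⟨_, List.getElem_mem hk, by simpa [List.getD, hk] using hR⟩
  · rintro ⟨b, hb, hR⟩
    obtain ⟨k, hk, rfl⟩ := List.getElem_of_mem hb
    exact ⟨k, hk, by simpa [List.getD, hk] using hR⟩

theorem not_computable_between (hP : PatStmt) (A : ℕ × List (List ℕ) → Prop)
    (lo : ∀ p : ℕ × List (List ℕ), (∀ l ∈ p.2, ∀ i ∈ l, i < p.1) →
      (∃ X : ℕ → Set E, (∀ i, Convex ℝ (X i) ∧ IsCompact (X i)) ∧ (∀ i, p.1 ≤ i → X i = ∅) ∧
        IsCode X p.2 ∧ IsCode (fun i => interior (X i)) p.2) → A p)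
    (hi : ∀ p, A p → ∃ (d : ℕ) (X : ℕ → Set (EuclideanSpace ℝ (Fin d))), (∀ i, Convex ℝ (X i)) ∧
      ((∀ i, IsOpen (X i)) ∨ ∀ i, IsClosed (X i)) ∧ IsCode X p.2) :
    ¬ ComputablePred A := by
  intro h
  have hf : Nat.Partrec fun n => (Denumerable.ofNat Nat.Partrec.Code n).eval 0 :=
    Partrec.nat_iff.1 (Nat.Partrec.Code.eval_part.comp (Computable.ofNat _) (Computable.const 0))
  obtain ⟨F, Q, hF, hFQ⟩ := hP _ hf
  classical
  let B : Nat.Partrec.Code → ℕ := fun c =>
    (Q ++ (F (Encodable.encode c)).flatMap Prod.snd).sum + 1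
  have hB : Primrec B := Primrec.succ.comp (primrec_sum.comp (Primrec.list_append.comp
    (Primrec.const Q) (Primrec.list_flatMap (hF.comp Primrec.encode)
      (Primrec.snd.comp Primrec.snd).to₂)))
  have hN : ∀ c, (∀ p ∈ F (Encodable.encode c), ∀ b ∈ p.2, b < B c) ∧ ∀ r ∈ Q, r < B c := by
    intro c
    refine ⟨fun p hp b hb => Nat.lt_succ_of_le (List.le_sum_of_mem ?_),
      fun r hr => Nat.lt_succ_of_le (List.le_sum_of_mem ?_)⟩
    · exact List.mem_append_right _ (List.mem_flatMap.2 ⟨p, hp, hb⟩)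
    · exact List.mem_append_left _ hr
  have h1 : ComputablePred fun p : Nat.Partrec.Code × List (List ℕ) =>
      A (B p.1, p.2) ∧ Good (F (Encodable.encode p.1)) Q p.2 := by
    have a1 := h.decide.comp (((hB.comp Primrec.fst).pair
      (Primrec.snd (α := Nat.Partrec.Code) (β := List (List ℕ)))).to_comp)
    have a2 := ((primrec_good Q).comp (hF.comp (Primrec.encode.comp
      (Primrec.fst (α := Nat.Partrec.Code) (β := List (List ℕ))))) Primrec.snd).decide.to_comp
    exact Computable.computablePred ((Primrec.and.to_comp.comp a1 a2).of_eq fun p => by simp)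
  refine ComputablePred.halting_problem 0 ((computable_exists_mem
    (L := fun c => (List.range (B c)).sublists'.sublists')
    (primrec_sublists'.comp (primrec_sublists'.comp (Primrec.list_range.comp hB)))
    (R := fun c C => A (B c, C) ∧ Good (F (Encodable.encode c)) Q C) h1).of_eq fun c => ?_)
  have hc := hFQ (Encodable.encode c)
  simp only [Denumerable.ofNat_encode] at hc
  constructor
  · rintro ⟨C, -, hA, hg⟩
    obtain ⟨d, X, c1, c2, c3⟩ := hi _ hA
    exact hc.1 d X c1 c2 (of_good c3 hg).1 (of_good c3 hg).2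
  · intro hd
    obtain ⟨X, c1, c2, c3, c4⟩ := hc.2 hd
    obtain ⟨C, m1, m2, m3, m4⟩ := exists_code X (hN c) c3 c4
    refine ⟨C, m1, lo _ m2 ⟨fun i => if i < B c then X i else ∅, fun i => ?_,
      fun i hi => if_neg (not_lt.2 hi), m3, SameCode.isCode ⟨fun x => ?_, fun y => ?_⟩ m3⟩, m4⟩
    · by_cases hi : i < B c <;> simp [hi, c1 i, convex_empty]
    · obtain ⟨y, hy⟩ := c2.1 x
      exact ⟨y, fun i => by by_cases hi : i < B c <;> simp [hi, hy i]⟩
    · obtain ⟨x, hx⟩ := c2.2 y
      exact ⟨x, fun i => by by_cases hi : i < B c <;> simp [hi, hx i]⟩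

end Pool.Agent.MP_082264_lc.Rb
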