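import Mathlib.LinearAlgebra.Dimension.Free
import Mathlib.LinearAlgebra.Basis.VectorSpace
import Mathlib.Topology.Algebra.Module.FiniteDimension
import Pool.Agent.MP_082264_lc.Rb.Red

/-! Transfer of a compact realization in dimension three, whose interior has the same code, to
every dimension `d ≥ 3`. -/

set_option autoImplicit false

namespace Pool.Agent.MP_082264_lc.Rb

open Set Function

theorem exists_maps {d : ℕ} (hd : 3 ≤ d) :
    ∃ (f : E →ₗ[ℝ] EuclideanSpace ℝ (Fin d)) (g : EuclideanSpace ℝ (Fin d) →ₗ[ℝ] E),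
      ∀ x, g (f x) = x := by
  obtain ⟨f, hf⟩ : ∃ f : E →ₗ[ℝ] EuclideanSpace ℝ (Fin d), Injective f :=
    finrank_le_iff_exists_linearMap.1 (by simpa using hd)
  obtain ⟨g, hg⟩ := f.exists_leftInverse_of_injective (LinearMap.ker_eq_bot.2 hf)
  exact ⟨f, g, fun x => LinearMap.congr_fun hg x⟩

theorem IsCode.slab {α β : Type} {X : ℕ → Set α} {C : List (List ℕ)} (h : IsCode X C)
    {g : β → α} {K : Set β} (hg : ∀ x, ∃ y ∈ K, g y = x) (h0 : ∃ x, ∀ i, x ∉ X i) :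
    IsCode (fun i => g ⁻¹' X i ∩ K) C := by
  unfold IsCode at h ⊢
  rw [← h]
  ext S
  constructor
  · rintro ⟨y, rfl⟩
    by_cases hy : y ∈ K
    · exact ⟨g y, Set.ext fun i => ⟨fun h => h.1, fun h => ⟨h, hy⟩⟩⟩
    · obtain ⟨x, hx⟩ := h0
      exact ⟨x, Set.ext fun i => ⟨fun h => absurd h.2 hy, fun h => absurd h (hx i)⟩⟩
  · rintro ⟨x, rfl⟩
    obtain ⟨y, hy, rfl⟩ := hg x
    exact ⟨y, Set.ext fun i => ⟨fun h => ⟨h, hy⟩, fun h => h.1⟩⟩

theorem lift_dim {d : ℕ} (hd : 3 ≤ d) {n : ℕ} {C : List (List ℕ)} {X : ℕ → Set E}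
    (hX : ∀ i, Convex ℝ (X i) ∧ IsCompact (X i)) (h0 : ∀ i, n ≤ i → X i = ∅) (hC : IsCode X C)
    (hC' : IsCode (fun i => interior (X i)) C) :
    ∃ Y : ℕ → Set (EuclideanSpace ℝ (Fin d)), (∀ i, Convex ℝ (Y i) ∧ IsCompact (Y i)) ∧
      (∀ i, n ≤ i → Y i = ∅) ∧ IsCode Y C ∧ IsCode (fun i => interior (Y i)) C := by
  obtain ⟨f, g, hg⟩ := exists_maps hd
  have cf := f.continuous_of_finiteDimensional
  have cg := g.continuous_of_finiteDimensional
  obtain ⟨x₀, hx₀⟩ : ∃ x, ∀ i, x ∉ X i := by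
    have hK : IsCompact (⋃ i ∈ Finset.range n, X i) :=
      (Finset.range n).isCompact_biUnion fun i _ => (hX i).2
    obtain ⟨x, hx⟩ := (ne_univ_iff_exists_notMem _).1 hK.ne_univ
    refine ⟨x, fun i hi => ?_⟩
    rcases lt_or_ge i n with h | h
    · exact hx (mem_biUnion (Finset.mem_range.2 h) hi)
    · rw [h0 i h] at hi
      exact hi
  let k : EuclideanSpace ℝ (Fin d) →ₗ[ℝ] EuclideanSpace ℝ (Fin d) := LinearMap.id - f ∘ₗ g
  have ck := k.continuous_of_finiteDimensional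
  have hin : ∀ x, f x ∈ interior (k ⁻¹' Metric.closedBall 0 1) := fun x =>
    interior_maximal (preimage_mono Metric.ball_subset_closedBall)
      (Metric.isOpen_ball.preimage ck) (by simp [k, hg])
  refine ⟨fun i => g ⁻¹' X i ∩ k ⁻¹' Metric.closedBall 0 1, fun i => ⟨?_, ?_⟩,
    fun i hi => by simp [h0 i hi],
    hC.slab (fun x => ⟨f x, interior_subset (hin x), hg x⟩) ⟨x₀, hx₀⟩, ?_⟩
  · exact ((hX i).1.linear_preimage g).inter ((convex_closedBall _ _).linear_preimage k)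
  · refine ((((hX i).2.image cf).prod (isCompact_closedBall (0 : EuclideanSpace ℝ (Fin d)) 1)).image
      continuous_add).of_isClosed_subset
      (((hX i).2.isClosed.preimage cg).inter (Metric.isClosed_closedBall.preimage ck)) ?_
    rintro y ⟨h1, h2⟩
    exact ⟨(f (g y), k y), ⟨mem_image_of_mem f h1, h2⟩, by simp [k]⟩
  · have ho : IsOpenMap g := g.isOpenMap_of_finiteDimensional fun x => ⟨f x, hg x⟩
    simp only [interior_inter, ← ho.preimage_interior_eq_interior_preimage cg]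
    exact hC'.slab (fun x => ⟨f x, hin x, hg x⟩) ⟨x₀, fun i h => hx₀ i (interior_subset h)⟩

theorem not_computable_dim (hP : PatStmt) {d : ℕ} (hd : 3 ≤ d) (A : ℕ × List (List ℕ) → Prop)
    (lo : ∀ p : ℕ × List (List ℕ), (∀ l ∈ p.2, ∀ i ∈ l, i < p.1) →
      (∃ X : ℕ → Set (EuclideanSpace ℝ (Fin d)), (∀ i, Convex ℝ (X i) ∧ IsCompact (X i)) ∧
        (∀ i, p.1 ≤ i → X i = ∅) ∧ IsCode X p.2 ∧ IsCode (fun i => interior (X i)) p.2) → A p)
    (hi : ∀ p, A p → ∃ (e : ℕ) (X : ℕ → Set (EuclideanSpace ℝ (Fin e))), (∀ i, Convex ℝ (X i)) ∧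
      ((∀ i, IsOpen (X i)) ∨ ∀ i, IsClosed (X i)) ∧ IsCode X p.2) :
    ¬ ComputablePred A :=
  not_computable_between hP A
    (fun p hp ⟨_, h1, h2, h3, h4⟩ => lo p hp (lift_dim hd h1 h2 h3 h4)) hi

end Pool.Agent.MP_082264_lc.Rb
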