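import Pool.Agent.MP_082264_lc.Rb.Defs

/-! Weights, covers and homologies in a real normed space. -/

set_option autoImplicit false

namespace Pool.Agent.MP_082264_lc.Rb

open Set Function

variable {F : Type} [NormedAddCommGroup F] [NormedSpace ℝ F]

/-- The point with homogeneous barycentric weights `w`. -/
noncomputable def bq (V : Fin 3 → F) (w : Fin 3 → ℝ) : F :=
  (w 0 + w 1 + w 2)⁻¹ • (w 0 • V 0 + w 1 • V 1 + w 2 • V 2)

def Pos (w : Fin 3 → ℝ) : Prop := (∀ i, 0 ≤ w i) ∧ 0 < w 0 + w 1 + w 2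

theorem Pos.mul {w s : Fin 3 → ℝ} (hw : Pos w) (hs : ∀ i, 0 < s i) : Pos fun i => s i * w i := by
  refine ⟨fun i => mul_nonneg (hs i).le (hw.1 i), ?_⟩
  have h0 := hw.1 0; have h1 := hw.1 1; have h2 := hw.1 2
  have s0 := hs 0; have s1 := hs 1; have s2 := hs 2
  have := hw.2
  by_contra h
  have a0 := mul_nonneg s0.le h0
  have a1 := mul_nonneg s1.le h1
  have a2 := mul_nonneg s2.le h2
  have b0 : w 0 = 0 := by
    have : s 0 * w 0 = 0 := by linarith
    exact (mul_eq_zero.1 this).resolve_left s0.ne'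
  have b1 : w 1 = 0 := by
    have : s 1 * w 1 = 0 := by linarith
    exact (mul_eq_zero.1 this).resolve_left s1.ne'
  have b2 : w 2 = 0 := by
    have : s 2 * w 2 = 0 := by linarith
    exact (mul_eq_zero.1 this).resolve_left s2.ne'
  linarith

theorem pos_of_pos {w : Fin 3 → ℝ} (h : ∀ i, 0 < w i) : Pos w :=
  ⟨fun i => (h i).le, by have := h 0; have := h 1; have := h 2; positivity⟩

theorem bq_mem {D : Set F} (hD : Convex ℝ D) {V : Fin 3 → F} (hV : ∀ i, V i ∈ D)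
    {w : Fin 3 → ℝ} (hw : Pos w) : bq V w ∈ D := by
  have := hD.centerMass_mem (t := Finset.univ) (w := w) (z := V) (fun i _ => hw.1 i)
    (by simpa [Fin.sum_univ_three] using hw.2) (fun i _ => hV i)
  simpa [Finset.centerMass, Fin.sum_univ_three, bq] using this

theorem bq_smul (V : Fin 3 → F) (w : Fin 3 → ℝ) {s : ℝ} (hs : s ≠ 0) :
    bq V (fun i => s * w i) = bq V w := by
  simp only [bq, ← mul_add, mul_inv]
  match_scalars <;> field_simp

theorem bq_add {Y : Set F} (hY : Convex ℝ Y) {V : Fin 3 → F} {w w' : Fin 3 → ℝ} (hw : Pos w)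
    (hw' : Pos w') (h : bq V w ∈ Y) (h' : bq V w' ∈ Y) : bq V (fun i => w i + w' i) ∈ Y := by
  have a := hw.2
  have a' := hw'.2
  set s := w 0 + w 1 + w 2 with hs
  set s' := w' 0 + w' 1 + w' 2 with hs'
  have e : bq V (fun i => w i + w' i) = (s / (s + s')) • bq V w + (s' / (s + s')) • bq V w' := by
    have e0 : w 0 + w' 0 + (w 1 + w' 1) + (w 2 + w' 2) = s + s' := by rw [hs, hs']; ring
    simp only [bq, e0, ← hs, ← hs']
    match_scalars <;> field_simp
  rw [e]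
  exact hY h h' (by positivity) (by positivity) (by field_simp)

/-- Adding a nonnegative multiple of a vertex. -/
theorem bq_add_vertex {Y : Set F} (hY : Convex ℝ Y) {V : Fin 3 → F} {w : Fin 3 → ℝ} (hw : Pos w)
    (h : bq V w ∈ Y) (i : Fin 3) (hi : V i ∈ Y) {c : ℝ} (hc : 0 ≤ c) :
    bq V (fun j => w j + if j = i then c else 0) ∈ Y := by
  rcases hc.eq_or_lt with rfl | hc
  · simpa using h
  refine bq_add hY hw ⟨fun j => by by_cases hj : j = i <;> simp [hj, hc.le], ?_⟩ h ?_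
  · fin_cases i <;> simp [hc]
  · fin_cases i <;> simpa [bq, smul_smul, hc.ne'] using hi

theorem bq_proj {X : Set F} (hX : Convex ℝ X) {V V' : Fin 3 → F} {a : F} {α : Fin 3 → ℝ}
    (hα : ∀ i, 0 < α i) (hα' : ∀ i, α i ≤ 1) (hV : ∀ i, V' i = a + α i • (V i - a))
    {w : Fin 3 → ℝ} (hw : Pos w) (ha : a ∈ X) (hp : bq V w ∈ X) :
    bq V' (fun i => (α i)⁻¹ * w i) ∈ X := by
  have a0 := hα 0; have a1 := hα 1; have a2 := hα 2
  have hle : ∀ i, w i ≤ (α i)⁻¹ * w i := fun i =>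
    le_mul_of_one_le_left (hw.1 i) ((one_le_inv₀ (hα i)).2 (hα' i))
  have hs0 := hw.2
  have hs'0 := (hw.mul (s := fun i => (α i)⁻¹) fun i => inv_pos.2 (hα i)).2
  set s := w 0 + w 1 + w 2 with hs
  set s' := (α 0)⁻¹ * w 0 + (α 1)⁻¹ * w 1 + (α 2)⁻¹ * w 2 with hs'
  have hss : s / s' ≤ 1 := by
    rw [div_le_one hs'0]; linarith [hle 0, hle 1, hle 2]
  have e : bq V' (fun i => (α i)⁻¹ * w i) = (1 - s / s') • a + (s / s') • bq V w := by
    have e0 : (1 - s / s') = s'⁻¹ * (s' - s) := by field_simp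
    rw [e0]
    simp only [bq, hV, ← hs, ← hs']
    match_scalars
    · rw [hs, hs']; field_simp; ring
    all_goals field_simp
  rw [e]
  exact hX ha hp (by linarith) (by positivity) (by ring)

theorem homology {V : Fin 3 → F} {a a' v : F} (i : Fin 3) {γ γ' : ℝ} (hγ : 0 < γ) (hγ1 : γ < 1)
    (hγ' : 0 < γ') (hγ1' : γ' < 1) (e : v = a + γ • (V i - a)) (e' : V i = a + γ' • (a' - a)) :
    ∃ μ : ℝ, 1 < μ ∧ ∀ (X Y D' : Set F), Convex ℝ X → Convex ℝ Y → Convex ℝ D' → a ∈ X → a' ∈ Y →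
      v ∈ D' → (∀ j, j ≠ i → V j ∈ D') → (∀ x ∈ X, x ∈ D' → x ∈ Y) → ∀ w : Fin 3 → ℝ, Pos w →
      bq V w ∈ X → bq V (fun j => (if i = j then μ else 1) * w j) ∈ Y := by
  have hd : 0 < 1 - γ * γ' := by nlinarith
  set β := (1 - γ') / (1 - γ * γ') with hβd
  have hβ0 : 0 < β := div_pos (by linarith) hd
  have hβ1 : β ≤ 1 := by rw [hβd, div_le_one hd]; nlinarith
  refine ⟨β⁻¹ * γ⁻¹, ?_, fun X Y D' hX hY hD' ha ha' hv hV hsub w hw hp => ?_⟩
  · have h1 : 1 ≤ β⁻¹ := (one_le_inv₀ hβ0).2 hβ1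
    have h2 : 1 < γ⁻¹ := (one_lt_inv₀ hγ).2 hγ1
    nlinarith
  have hα : ∀ j, 0 < update (fun _ => (1 : ℝ)) i γ j := fun j => by
    by_cases h : j = i <;> simp [h, hγ]
  have hβ : ∀ j, 0 < update (fun _ => (1 : ℝ)) i β j := fun j => by
    by_cases h : j = i <;> simp [h, hβ0]
  have h1 := bq_proj hX (V := V) (V' := update V i v) (α := update (fun _ => 1) i γ) hα
    (fun j => by by_cases h : j = i <;> simp [h, hγ1.le])
    (fun j => by by_cases h : j = i <;> simp [h, e]) hw ha hp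
  have hw' := hw.mul (s := fun j => (update (fun _ => (1 : ℝ)) i γ j)⁻¹)
    fun j => inv_pos.2 (hα j)
  have h2 := bq_mem hD' (V := update V i v)
    (fun j => by by_cases h : j = i <;> simp [h, hv, hV j]) hw'
  have h3 := bq_proj hY (V := update V i v) (V' := V) (α := update (fun _ => 1) i β) hβ
    (fun j => by by_cases h : j = i <;> simp [h, hβ1])
    (fun j => by
      by_cases h : j = i
      · subst h
        simp only [update_self]
        have hb : β * (1 - γ * γ') = 1 - γ' := div_mul_cancel₀ _ hd.ne'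
        rw [e, e']
        match_scalars
        · linear_combination -hb
        · linear_combination hb
      · simp [h]) hw' ha' (hsub _ h1 h2)
  convert h3 using 2
  funext j
  by_cases h : j = i
  · subst h
    simp only [update_self, if_true]
    ring
  · simp [h, Ne.symm h]

theorem cover {L0 L1 L2 : Set F} (c0 : Convex ℝ L0)
    (ho : (IsOpen L1 ∧ IsOpen L2) ∨ (IsClosed L1 ∧ IsClosed L2)) {p q : F} (p0 : p ∈ L0)
    (q0 : q ∈ L0) (h : L0 ⊆ L1 ∪ L2) (p1 : p ∈ L1) (q2 : q ∈ L2) :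
    ∃ γ : ℝ, 0 ≤ γ ∧ γ ≤ 1 ∧ p + γ • (q - p) ∈ L1 ∧ p + γ • (q - p) ∈ L2 := by
  have hs : segment ℝ p q ⊆ L1 ∪ L2 := (c0.segment_subset p0 q0).trans h
  have hc := (convex_segment (𝕜 := ℝ) p q).isPreconnected
  obtain ⟨x, hx, h1, h2⟩ : (segment ℝ p q ∩ (L1 ∩ L2)).Nonempty := by
    rcases ho with ⟨o1, o2⟩ | ⟨o1, o2⟩
    · exact hc L1 L2 o1 o2 hs ⟨p, left_mem_segment _ _ _, p1⟩ ⟨q, right_mem_segment _ _ _, q2⟩
    · exact isPreconnected_closed_iff.1 hc L1 L2 o1 o2 hs ⟨p, left_mem_segment _ _ _, p1⟩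
        ⟨q, right_mem_segment _ _ _, q2⟩
  rw [segment_eq_image'] at hx
  obtain ⟨γ, ⟨g0, g1⟩, rfl⟩ := hx
  exact ⟨γ, g0, g1, h1, h2⟩

theorem tendsto_bq (V : Fin 3 → F) (w : Fin 3 → ℝ) (hw : 0 < w 2) {a b : ℝ} (ha : 0 ≤ a)
    (ha1 : a < 1) (hb : 0 ≤ b) (hb1 : b < 1) :
    Filter.Tendsto (fun t : ℕ => bq V ![w 0 * a ^ t, w 1 * b ^ t, w 2]) Filter.atTop
      (nhds (V 2)) := by
  have h1 := (tendsto_pow_atTop_nhds_zero_of_lt_one ha ha1).const_mul (w 0)
  have h2 := (tendsto_pow_atTop_nhds_zero_of_lt_one hb hb1).const_mul (w 1)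
  have h3 := (((h1.add h2).add_const (w 2)).inv₀ (by simpa using hw.ne')).smul
    (((h1.smul_const (V 0)).add (h2.smul_const (V 1))).add_const (w 2 • V 2))
  simpa [bq, smul_smul, hw.ne'] using h3

end Pool.Agent.MP_082264_lc.Rb
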