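import Pool.Agent.MP_082264_lc.Rb.Sound

/-! The closed model: sets and ranks. -/

set_option autoImplicit false

namespace Pool.Agent.MP_082264_lc.Rb

open Set Function

variable {ι : Type}

def dot (l w : Fin 3 → ℝ) : ℝ := l 0 * w 0 + l 1 * w 1 + l 2 * w 2

/-- The cone cut out by a set of linear forms. -/
def Cut (L : Set (Fin 3 → ℝ)) (w : Fin 3 → ℝ) : Prop := ∀ l ∈ L, 0 ≤ dot l w

def wt (p : E) : Fin 3 → ℝ := fun i => bc i p

/-- The data of a model. -/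
structure Par (ι : Type) where
  μ : Hm → ℝ
  Lf : Nd ι → Set (Fin 3 → ℝ)
  LY : Set (Fin 3 → ℝ)
  M : ℝ

/-- The linear forms of a node. -/
def lin (Lf : Nd ι → Set (Fin 3 → ℝ)) : Nd ι → Set (Fin 3 → ℝ)
  | .m false => {![1, -1, 0], ![-1, 1, 0], ![0, 0, 1], ![0, 0, -1]}
  | .m true => {![0, 1, -1], ![0, -1, 1], ![1, 0, 0], ![-1, 0, 0]}
  | .inp j => {![2 ^ j, -1, 0], ![-2 ^ j, 1, 0], ![4 ^ j, 0, -1], ![-4 ^ j, 0, 1]}
  | s => Lf s

/-- Nodes whose set is one point. -/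
def ray : Nd ι → Prop
  | .m _ => True
  | .inp _ => True
  | _ => False

def Cn (P : Par ι) (s : Nd ι) (u : List Hm) (w : Fin 3 → ℝ) : Prop :=
  (∀ i, 0 ≤ w i) ∧ Cut (lin P.Lf s) fun i => w i / sc P.μ u i

noncomputable def wp (μ : Hm → ℝ) (h : Hm) : E := !₂[vx h.1, vy h.1, (μ h - 1) / (μ h + 1)]

noncomputable def mp : Bool → E
  | false => !₂[1 / 2, 0, 0]
  | true => !₂[1 / 2, 1 / 2, 0]

/-- The two ends and the inner point of a cover. -/
noncomputable def cp (μ : Hm → ℝ) : Cv → E × E × E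
  | .v i => (pos (.a i), pos (.a' i), pos (.V i))
  | .w h => (pos (.a h.1), pos (.V h.1), wp μ h)
  | .m false => (pos (.V 0), pos (.V 1), mp false)
  | .m true => (pos (.V 1), pos (.V 2), mp true)

noncomputable def mfx (P : Par ι) : Fx → Set E
  | .A i => {pos (.a i)}
  | .A' i => {pos (.a' i)}
  | .V i => {pos (.V i)}
  | .W h => {wp P.μ h}
  | .D => {p | p 2 = 0 ∧ ∀ i, 0 ≤ wt p i}
  | .D' h => {p | (P.μ h + 1) * p 2 = (P.μ h - 1) * wt p h.1}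
  | .L c j => ![segment ℝ (cp P.μ c).1 (cp P.μ c).2.1, segment ℝ (cp P.μ c).1 (cp P.μ c).2.2,
      segment ℝ (cp P.μ c).2.2 (cp P.μ c).2.1] j
  | .Lx false => segment ℝ (pos (.V 2)) (mp false)
  | .Lx true => segment ℝ (pos (.V 0)) (mp true)
  | .H j => ![segment ℝ (mp false) (pos (.V 0)), segment ℝ (mp false) (pos (.V 1)),
      segment ℝ (mp true) (pos (.V 2)), segment ℝ (mp true) (pos (.V 1))] j
  | .Y => {p | Cut P.LY (wt p)}
  | .Wc => {p | wt p 2 ≤ P.M * (wt p 0 + wt p 1)}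

/-- The closed model. -/
noncomputable def mdl (P : Par ι) : Nm ι → Set E
  | .fx a => mfx P a
  | .X _ [] => ∅
  | .X s (h :: u) => {p | Cn P s u (update (wt p) h.1 (wt p h.1 - p 2))}
  | .Z s [] => {p | (ray s → p 2 = 0) ∧ Cut (lin P.Lf s) (wt p)}
  | .Z s (h :: u) => {p | Cn P s (h :: u) (update (wt p) h.1 (wt p h.1 + p 2))}

def nb : Nd ι → ℕ
  | .inp j => 10 + 5 * j
  | _ => 8

def rfx : Fx → ℕ
  | .A _ => 0
  | .A' _ => 0
  | .V _ => 3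
  | .W _ => 6
  | .D => 4
  | .D' _ => 7
  | .L (.v _) j => if j = 0 then 1 else 2
  | .L _ j => if j = 0 then 4 else 5
  | .Lx _ => 9
  | .H _ => 9
  | .Y => 100
  | .Wc => 0

/-- The rank. -/
def rk : Nm ι → ℕ
  | .fx a => rfx a
  | .X s u => nb s + 2 * u.length - 1
  | .Z s u => nb s + 2 * u.length

/-- The part of the model that does not depend on the Horn system. -/
def FrameStmt : Prop :=
  ∀ (ι : Type) (P : Par ι), (∀ h, 1 < P.μ h) →
    (∀ a, Convex ℝ (mdl P a) ∧ IsClosed (mdl P a)) ∧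
    (∀ s u, ∀ p ∈ imgP s u, Stable (mdl P) rk p) ∧
    (∀ p ∈ frameP, Stable (mdl P) rk p) ∧
    (sc P.μ (hp ++ tw) 0 < sc P.μ (hp ++ tw) 1 → sc P.μ (hn ++ tw) 1 < sc P.μ (hn ++ tw) 0 →
      sc P.μ (hp ++ tw) 2 < sc P.μ (hp ++ tw) 1 → sc P.μ tw 1 < sc P.μ tw 2 →
      ∀ p ∈ checkP, Stable (mdl P) rk p) ∧
    (P.μ (1, some (some 0)) = 2 → P.μ (2, some (some 0)) = 4 →
      ∀ j, ∀ p ∈ stepP j, Stable (mdl P) rk p) ∧
    (∀ r ∈ reqs, ∃ x ∈ mdl P r, ‖x‖ < 10)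

end Pool.Agent.MP_082264_lc.Rb
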