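import Pool.Agent.MP_082264_lc.Rb.MDefs

/-! The part of the closed model that does not depend on the Horn system. -/

set_option autoImplicit false

namespace Pool.Agent.MP_082264_lc.Rb.Fr

open Set Function

variable {ι : Type}

def Ok (s : Set E) : Prop := Convex ℝ s ∧ IsClosed s

def AC (f : E → ℝ) : Prop := Aff f ∧ Continuous f

theorem ok_le {f : E → ℝ} (hf : AC f) : Ok {p | 0 ≤ f p} :=
  ⟨conv_le hf.1, isClosed_le continuous_const hf.2⟩

theorem ok_eq {f : E → ℝ} (hf : AC f) : Ok {p | f p = 0} :=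
  ⟨conv_eq hf.1, isClosed_eq hf.2 continuous_const⟩

theorem Ok.and {A B : E → Prop} (h : Ok {p | A p}) (h' : Ok {p | B p}) : Ok {p | A p ∧ B p} :=
  ⟨h.1.inter h'.1, h.2.inter h'.2⟩

theorem ok_all {α : Sort _} {A : α → E → Prop} (h : ∀ i, Ok {p | A i p}) :
    Ok {p | ∀ i, A i p} := by
  rw [ofPred_forall]
  exact ⟨convex_iInter fun i => (h i).1, isClosed_iInter fun i => (h i).2⟩

theorem AC.lin {f g h : E → ℝ} (hf : AC f) (hg : AC g) (hh : AC h) (a b c : ℝ) (k : E → ℝ)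
    (hk : ∀ p, k p = a * f p + b * g p + c * h p) : AC k := by
  obtain rfl : k = fun p => a * f p + b * g p + c * h p := funext hk
  refine ⟨fun p q s t hst => ?_, ?_⟩
  · simp only [hf.1 p q s t hst, hg.1 p q s t hst, hh.1 p q s t hst]
    ring
  · have := hf.2; have := hg.2; have := hh.2
    fun_prop

theorem ac_h : AC fun p => p 2 := ⟨aff_of _ fun p q a => by simp, by fun_prop⟩

theorem ac_wt (i : Fin 3) : AC fun p => wt p i := by
  fin_cases i
  · exact ⟨aff_of _ fun p q a => by simp [wt, bc]; ring, by simp only [wt, bc]; simp; fun_prop⟩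
  · exact ⟨aff_of _ fun p q a => by simp [wt, bc], by simp only [wt, bc]; simp; fun_prop⟩
  · exact ⟨aff_of _ fun p q a => by simp [wt, bc], by simp only [wt, bc]; simp; fun_prop⟩

theorem ok_cut (L : Set (Fin 3 → ℝ)) {g : E → Fin 3 → ℝ} (hg : ∀ i, AC fun p => g p i) :
    Ok {p | Cut L (g p)} :=
  ok_all fun l => ok_all fun _ => ok_le ((hg 0).lin (hg 1) (hg 2) (l 0) (l 1) (l 2) _ fun _ => rfl)

theorem ok_Cn (P : Par ι) (s : Nd ι) (u : List Hm) {g : E → Fin 3 → ℝ}
    (hg : ∀ i, AC fun p => g p i) : Ok {p | Cn P s u (g p)} :=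
  (ok_all fun i => ok_le (hg i)).and (ok_cut _ fun i =>
    (hg i).lin (hg i) (hg i) (sc P.μ u i)⁻¹ 0 0 _ fun p => by ring)

theorem ac_upd (j : Fin 3) (c : ℝ) (i : Fin 3) :
    AC fun p => update (wt p) j (wt p j + c * p 2) i := by
  by_cases h : i = j
  · subst h
    exact (ac_wt i).lin ac_h ac_h 1 c 0 _ fun p => by simp
  · simpa [h] using ac_wt i

theorem ok_seg (x y : E) : Ok (segment ℝ x y) := by
  refine ⟨convex_segment x y, IsCompact.isClosed ?_⟩
  rw [segment_eq_image]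
  exact isCompact_Icc.image (by fun_prop)

theorem ok_pt (x : E) : Ok {x} := ⟨convex_singleton x, isClosed_singleton⟩

theorem ok_mdl (P : Par ι) (a : Nm ι) : Ok (mdl P a) := by
  rcases a with a | ⟨s, _ | ⟨h, u⟩⟩ | ⟨s, _ | ⟨h, u⟩⟩
  · cases a with
    | A i => exact ok_pt _
    | A' i => exact ok_pt _
    | V i => exact ok_pt _
    | W h => exact ok_pt _
    | D => exact (ok_eq ac_h).and (ok_all fun i => ok_le (ac_wt i))
    | D' h =>
      have := ok_eq (ac_h.lin (ac_wt h.1) ac_h (P.μ h + 1) (-(P.μ h - 1)) 0 _ fun _ => rfl)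
      convert this using 1
      ext p
      simp only [mdl, mfx, mem_ofPred_eq]
      constructor <;> intro h <;> linarith
    | L c j => fin_cases j <;> exact ok_seg _ _
    | Lx e => cases e <;> exact ok_seg _ _
    | H j => fin_cases j <;> exact ok_seg _ _
    | Y => exact ok_cut _ ac_wt
    | Wc =>
      have := ok_le ((ac_wt 0).lin (ac_wt 1) (ac_wt 2) P.M P.M (-1) _ fun _ => rfl)
      convert this using 1
      ext p
      simp only [mdl, mfx, mem_ofPred_eq]
      constructor <;> intro h <;> linarith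
  · exact ⟨convex_empty, isClosed_empty⟩
  · simpa [mdl, sub_eq_add_neg] using ok_Cn P s u (ac_upd h.1 (-1))
  · exact (ok_all fun _ => ok_eq ac_h).and (ok_cut _ ac_wt)
  · simpa [mdl] using ok_Cn P s (h :: u) (ac_upd h.1 1)

theorem st1 {N : Type} {C : N → Set E} {ρ : N → ℕ} {a b : N} (h : C a ⊆ C b) (hr : ρ a < ρ b) :
    Stable C ρ ([a], [b]) :=
  ⟨by simp, Or.inr ⟨fun x hx => ⟨b, by simp, h (hx a (by simp))⟩, by simpa using hr⟩⟩

theorem st2 {N : Type} {C : N → Set E} {ρ : N → ℕ} {a a' b : N} (h : C a ∩ C a' ⊆ C b)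
    (hr : ρ a < ρ b) (hr' : ρ a' < ρ b) : Stable C ρ ([a, a'], [b]) :=
  ⟨by simp, Or.inr ⟨fun x hx => ⟨b, by simp, h ⟨hx a (by simp), hx a' (by simp)⟩⟩,
    by simpa using ⟨hr, hr'⟩⟩⟩

theorem st3 {N : Type} {C : N → Set E} {ρ : N → ℕ} {a b b' : N} (h : C a ⊆ C b ∪ C b')
    (hr : ρ a < ρ b) (hr' : ρ a < ρ b') : Stable C ρ ([a], [b, b']) :=
  ⟨by simp, Or.inr ⟨fun x hx => by simpa using h (hx a (by simp)), by simpa using ⟨hr, hr'⟩⟩⟩

theorem st0 {N : Type} {C : N → Set E} {ρ : N → ℕ} {l : List N} (hl : l ≠ [])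
    (h : ∀ x, (∀ a ∈ l, x ∈ C a) → False) : Stable C ρ (l, []) :=
  ⟨hl, Or.inr ⟨fun x hx => (h x hx).elim, by simp⟩⟩

theorem eight_le (s : Nd ι) : 8 ≤ nb s := by cases s <;> simp [nb]; omega

theorem cn_of_mem {P : Par ι} {s : Nd ι} {u : List Hm} {p : E} (h : p ∈ mdl P (.Z s u))
    (hD : p ∈ mdl P D) : Cn P s u (wt p) := by
  rcases u with _ | ⟨g, u⟩
  · exact ⟨hD.2, by simpa [sc] using h.2⟩
  · simpa [mdl, hD.1] using h

theorem cn_zero (P : Par ι) (s : Nd ι) (u : List Hm) {w : Fin 3 → ℝ} (h : ∀ i, w i = 0) :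
    Cn P s u w :=
  ⟨fun i => (h i).ge, fun l _ => by simp [dot, h]⟩

theorem img_ok (P : Par ι) (hμ : ∀ h, 1 < P.μ h) (s : Nd ι) (u : List Hm) :
    ∀ p ∈ imgP s u, Stable (mdl P) rk p := by
  induction u with
  | nil => simp [imgP]
  | cons h u ih =>
    have h8 := eight_le s
    simp only [imgP, List.forall_mem_cons]
    refine ⟨st2 ?_ ?_ ?_, st1 ?_ ?_, st2 ?_ ?_ ?_, st1 ?_ ?_, ih⟩
    · rintro p ⟨h1, h2⟩
      simpa [mdl, h2.1] using cn_of_mem h1 h2
    · simp [rk]; omega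
    · simp [rk, rfx]; omega
    · rintro p rfl
      refine cn_zero _ _ _ fun i => ?_
      rcases h with ⟨j, c⟩
      fin_cases i <;> fin_cases j <;> simp [wt, bc, pos, vx, vy]
    · simp [rk, rfx]; omega
    · rintro p ⟨⟨h1, h2⟩, h3⟩
      have m := hμ h
      have e : wt p h.1 + p 2 = P.μ h * (wt p h.1 - p 2) := by
        have : (P.μ h + 1) * p 2 = (P.μ h - 1) * wt p h.1 := h3
        linarith
      refine ⟨fun i => ?_, ?_⟩
      · have := h1 i
        by_cases hi : i = h.1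
        · subst hi
          simp only [update_self] at this ⊢
          rw [e]
          exact mul_nonneg (by linarith) this
        · simpa [hi] using this
      · convert h2 using 2 with i
        by_cases hi : i = h.1
        · subst hi
          simp only [update_self, sc, if_true]
          rw [e, mul_div_mul_left _ _ (by linarith)]
        · simp [hi, sc, Ne.symm hi]
    · simp [rk]
    · simp [rk, rfx]; omega
    · rintro p rfl
      refine cn_zero _ _ _ fun i => ?_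
      rcases h with ⟨j, c⟩
      fin_cases i <;> fin_cases j <;> simp [wt, bc, pos, vx, vy]
    · simp only [rk, rfx]; omega

theorem cov_ok (P : Par ι) (c : Cv) {A B R : Nm ι} {t : ℝ} (hA : mdl P A = {(cp P.μ c).1})
    (hB : mdl P B = {(cp P.μ c).2.1}) (hR : mdl P R = {(cp P.μ c).2.2})
    (e : (cp P.μ c).2.2 = (cp P.μ c).1 + t • ((cp P.μ c).2.1 - (cp P.μ c).1)) (t0 : 0 < t)
    (t1 : t < 1) (hne : (cp P.μ c).1 ≠ (cp P.μ c).2.1) {k : ℕ} (rA : rk A < k) (rB : rk B < k)
    (r0 : rfx (.L c 0) = k) (r1 : rfx (.L c 1) = k + 1) (r2 : rfx (.L c 2) = k + 1)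
    (rR : k + 1 < rk R) : ∀ p ∈ covP c A B R, Stable (mdl P) rk p := by
  have l0 : mdl P (.fx (.L c 0)) = segment ℝ (cp P.μ c).1 (cp P.μ c).2.1 := rfl
  have l1 : mdl P (.fx (.L c 1)) = segment ℝ (cp P.μ c).1 (cp P.μ c).2.2 := rfl
  have l2 : mdl P (.fx (.L c 2)) = segment ℝ (cp P.μ c).2.2 (cp P.μ c).2.1 := rfl
  have q : ∀ j, rk (ι := ι) (.fx (.L c j)) = rfx (.L c j) := fun _ => rfl
  generalize (cp P.μ c).1 = x at *
  generalize (cp P.μ c).2.1 = y at *
  generalize (cp P.μ c).2.2 = z at *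
  have hd : y - x ≠ 0 := sub_ne_zero.2 hne.symm
  simp only [covP, List.forall_mem_cons, List.not_mem_nil, false_imp_iff, implies_true, and_true]
  refine ⟨st1 ?_ (by rw [q]; omega), st1 ?_ (by rw [q]; omega),
    st3 ?_ (by rw [q, q]; omega) (by rw [q, q]; omega), st1 ?_ (by rw [q]; omega),
    st1 ?_ (by rw [q]; omega), st2 ?_ (by rw [q]; omega) (by rw [q]; omega),
    st0 (by simp) fun p hp => ?_, st0 (by simp) fun p hp => ?_⟩
  · rw [hA, l0]; simpa using left_mem_segment ℝ x y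
  · rw [hB, l0]; simpa using right_mem_segment ℝ x y
  · rw [l0, l1, l2, segment_eq_image', segment_eq_image', segment_eq_image']
    rintro _ ⟨s, ⟨s0, s1⟩, rfl⟩
    rcases le_total s t with h | h
    · refine Or.inl ⟨s / t, ⟨by positivity, (div_le_one t0).2 h⟩, ?_⟩
      simp only [e]
      match_scalars <;> field_simp <;> ring
    · have t2 : 0 < 1 - t := by linarith
      refine Or.inr ⟨(s - t) / (1 - t), ⟨div_nonneg (by linarith) t2.le,
        (div_le_one t2).2 (by linarith)⟩, ?_⟩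
      simp only [e]
      match_scalars <;> field_simp <;> ring
  · rw [hA, l1]; simpa using left_mem_segment ℝ x z
  · rw [hB, l2]; simpa using right_mem_segment ℝ z y
  · rw [l1, l2, hR, segment_eq_image', segment_eq_image']
    rintro _ ⟨⟨a, ⟨a0, a1⟩, rfl⟩, b, ⟨b0, b1⟩, h⟩
    have h1 : (t + b * (1 - t) - a * t) • (y - x) = 0 := by
      simp only [e] at h
      linear_combination (norm := module) h
    have h2 := (smul_eq_zero.1 h1).resolve_right hd
    have h3 : a = 1 := by nlinarith [mul_nonneg b0 (sub_nonneg.2 t1.le)]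
    simp [h3]
  · have h1 := hp A (by simp)
    have h2 := hp R (by simp)
    rw [hA] at h1
    rw [hR, h1, e] at h2
    simp [t0.ne', hd] at h2
  · have h1 := hp B (by simp)
    have h2 := hp R (by simp)
    rw [hB] at h1
    rw [hR, h1, e] at h2
    have h3 : (1 - t) • (y - x) = 0 := by 
      linear_combination (norm := module) (mem_singleton_iff.1 h2)
    exact (sub_pos.2 t1).ne' ((smul_eq_zero.1 h3).resolve_right hd)

theorem ext3 {p q : E} (h0 : p 0 = q 0) (h1 : p 1 = q 1) (h2 : p 2 = q 2) : p = q := by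
  ext i
  fin_cases i <;> assumption

theorem mdl_m (P : Par ι) (e : Bool) : mdl P (K (.m e)) = {mp e} := by
  ext p
  cases e
  · simp only [mdl, ray, lin, Cut, dot, wt, bc, mp, mem_ofPred_eq, mem_singleton_iff]
    simp
    constructor
    · rintro ⟨h, h1, h2, h3, h4⟩
      exact ext3 (by simp; linarith) (by simp; linarith) (by simpa using h)
    · rintro rfl
      simp
      norm_num
  · simp only [mdl, ray, lin, Cut, dot, wt, bc, mp, mem_ofPred_eq, mem_singleton_iff]
    simp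
    constructor
    · rintro ⟨h, h1, h2, h3, h4⟩
      exact ext3 (by simp; linarith) (by simp; linarith) (by simpa using h)
    · rintro rfl
      simp
      norm_num

theorem frame_ok (P : Par ι) (hμ : ∀ h, 1 < P.μ h) : ∀ p ∈ frameP, Stable (mdl P) rk p := by
  simp only [frameP, List.forall_mem_append, List.forall_mem_flatMap, List.forall_mem_cons,
    List.not_mem_nil, false_imp_iff, implies_true, and_true]
  refine ⟨⟨⟨⟨fun i _ => ⟨st1 ?_ (by simp [rk, rfx]), ?_⟩, fun h _ => ⟨st1 ?_ (by simp [rk, rfx]),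
    st1 ?_ (by simp [rk, rfx]), st1 ?_ (by simp [rk, rfx]), ?_⟩⟩, ?_⟩, ?_⟩,
    st1 ?_ (by simp [rk, rfx]), st1 ?_ (by simp [rk, rfx, nb]), st1 ?_ (by simp [rk, rfx]),
    st1 ?_ (by simp [rk, rfx, nb]), st2 ?_ (by simp [rk, rfx, nb]) (by simp [rk, rfx, nb])⟩
  · rintro p rfl
    refine ⟨by simp [pos], fun j => ?_⟩
    fin_cases i <;> fin_cases j <;> simp [wt, bc, pos, vx, vy]
  · refine cov_ok P (.v i) (t := 1 / 2) (k := 1) rfl rfl rfl ?_ (by norm_num) (by norm_num)
      (fun h => ?_) (by simp [rk, rfx]) (by simp [rk, rfx]) rfl rfl rfl (by simp [rk, rfx])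
    · exact ext3 (by simp [cp, pos]) (by simp [cp, pos]) (by simp [cp, pos]; norm_num)
    · have := congrArg (fun p : E => p 2) h
      simp [cp, pos] at this
      linarith
  · rintro p rfl
    have m := hμ h
    have : wt (wp P.μ h) h.1 = 1 := by
      rcases h with ⟨j, c⟩
      fin_cases j <;> simp [wt, bc, wp, vx, vy]
    simp only [mdl, mfx, mem_ofPred_eq, this]
    simp only [wp]
    simp
    field_simp
  · rintro p rfl
    rcases h with ⟨j, c⟩
    fin_cases j <;> simp [mdl, mfx, wt, bc, pos, vx, vy]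
  · rintro p rfl
    rcases h with ⟨j, c⟩
    fin_cases j <;> simp [mdl, mfx, wt, bc, pos, vx, vy]
  · have m := hμ h
    refine cov_ok P (.w h) (t := 2 / (P.μ h + 1)) (k := 4) rfl rfl rfl ?_ (by positivity)
      (by rw [div_lt_one (by linarith)]; linarith)
      (fun h => ?_) (by simp [rk, rfx]) (by simp [rk, rfx]) rfl rfl rfl (by simp [rk, rfx])
    · refine ext3 (by simp [cp, pos, wp]) (by simp [cp, pos, wp]) ?_
      simp [cp, pos, wp]
      field_simp
      ring
    · have := congrArg (fun p : E => p 2) h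
      simp [cp, pos] at this
  · refine cov_ok P (.m false) (t := 1 / 2) (k := 4) rfl rfl (mdl_m P _) ?_ (by norm_num)
      (by norm_num) (fun h => ?_) (by simp [rk, rfx]) (by simp [rk, rfx]) rfl rfl rfl
      (by simp [rk, nb])
    · exact ext3 (by simp [cp, pos, mp, vx]) (by simp [cp, pos, mp, vy]) (by simp [cp, pos, mp])
    · have := congrArg (fun p : E => p 0) h
      simp [cp, pos, vx] at this
  · refine cov_ok P (.m true) (t := 1 / 2) (k := 4) rfl rfl (mdl_m P _) ?_ (by norm_num)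
      (by norm_num) (fun h => ?_) (by simp [rk, rfx]) (by simp [rk, rfx]) rfl rfl rfl
      (by simp [rk, nb])
    · exact ext3 (by simp [cp, pos, mp, vx]; norm_num) (by simp [cp, pos, mp, vy])
        (by simp [cp, pos, mp])
    · have := congrArg (fun p : E => p 0) h
      simp [cp, pos, vx] at this
  · rintro p rfl
    exact left_mem_segment ℝ _ _
  · rw [mdl_m]
    rintro p rfl
    exact right_mem_segment ℝ _ _
  · rintro p rfl
    exact left_mem_segment ℝ _ _
  · rw [mdl_m]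
    rintro p rfl
    exact right_mem_segment ℝ _ _
  · rintro p ⟨⟨a, b, -, -, hab, rfl⟩, c, d, -, -, hcd, h⟩
    have h0 := congrArg (fun p : E => p 0) h
    have h1 := congrArg (fun p : E => p 1) h
    simp [pos, mp, vx, vy] at h0 h1
    simp [mdl, ray, lin, Cut, dot, wt, bc, pos, mp, vx, vy]
    refine ⟨?_, ?_, ?_, ?_⟩ <;> linarith

theorem chk_ok (P : Par ι) (hμ : ∀ h, 1 < P.μ h) (j : Fin 4) (e : Bool) (i : Fin 3) (u : List Hm)
    (hH : mdl P (.fx (.H j)) = segment ℝ (mp e) (pos (.V i)))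
    (h : ∀ p ∈ segment ℝ (mp e) (pos (.V i)), ¬ Cn P (.m e) u (wt p)) :
    ∀ p ∈ chkP j e i u, Stable (mdl P) rk p := by
  simp only [chkP, List.forall_mem_cons]
  refine ⟨st1 ?_ (by simp [rk, rfx, nb]), st1 ?_ (by simp [rk, rfx]),
    st0 (by simp) fun p hp => ?_, img_ok P hμ _ _⟩
  · rw [mdl_m, hH]
    rintro p rfl
    exact left_mem_segment ℝ _ _
  · rw [hH]
    rintro p rfl
    exact right_mem_segment ℝ _ _
  · exact h p (hH ▸ hp _ (by simp)) (cn_of_mem (hp _ (by simp)) (hp _ (by simp)))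

theorem not_ratio {x y a b : ℝ} (ha : 0 < a) (hab : a < b) (hs : x + y = 1) (hxy : y ≤ x)
    (h : y / b = x / a) : False := by
  have hb : 0 < b := by linarith
  field_simp at h
  nlinarith

theorem frame : FrameStmt := by
  intro ι P hμ
  refine ⟨ok_mdl P, img_ok P hμ, frame_ok P hμ, fun c0 c1 c2 c3 => ?_, fun m1 m2 j => ?_, ?_⟩
  · simp only [checkP, List.forall_mem_append]
    refine ⟨⟨⟨chk_ok P hμ _ _ _ _ rfl ?_, chk_ok P hμ _ _ _ _ rfl ?_⟩,
      chk_ok P hμ _ _ _ _ rfl ?_⟩, chk_ok P hμ _ _ _ _ rfl ?_⟩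
    · rintro _ ⟨a, b, a0, b0, hab, rfl⟩ ⟨-, h⟩
      simp [lin, Cut, dot, wt, bc, pos, mp, vx, vy] at h
      exact not_ratio (sc_pos hμ _ 0) c0 (x := 1 - a * 2⁻¹) (y := a * 2⁻¹) (by ring) (by linarith)
        (by linarith [h.1, h.2])
    · rintro _ ⟨a, b, a0, b0, hab, rfl⟩ ⟨-, h⟩
      simp [lin, Cut, dot, wt, bc, pos, mp, vx, vy] at h
      exact not_ratio (sc_pos hμ _ 1) c1 (x := a * 2⁻¹ + b) (y := 1 - (a * 2⁻¹ + b)) (by ring)
        (by linarith) (by linarith [h.1, h.2])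
    · rintro _ ⟨a, b, a0, b0, hab, rfl⟩ ⟨-, h⟩
      simp [lin, Cut, dot, wt, bc, pos, mp, vx, vy] at h
      exact not_ratio (sc_pos hμ _ 2) c2 (x := a * 2⁻¹ + b) (y := a * 2⁻¹) (by linarith)
        (by linarith) (by linarith [h.1, h.2.1])
    · rintro _ ⟨a, b, a0, b0, hab, rfl⟩ ⟨-, h⟩
      simp [lin, Cut, dot, wt, bc, pos, mp, vx, vy] at h
      exact not_ratio (sc_pos hμ _ 1) c3 (x := a * 2⁻¹ + b) (y := a * 2⁻¹) (by linarith)
        (by linarith) (by linarith [h.1, h.2.1])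
  · simp only [stepP, hullP, List.forall_mem_cons]
    refine ⟨st2 ?_ (by simp [rk, nb, gw]; omega) (by simp [rk, rfx, nb]; omega), img_ok P hμ _ _⟩
    rintro p ⟨h1, h2⟩
    obtain ⟨-, h⟩ := cn_of_mem h1 h2
    refine ⟨fun _ => h2.1, ?_⟩
    simp [lin, Cut, dot, gw, sc, m1, m2] at h ⊢
    simp only [pow_succ]
    refine ⟨?_, ?_, ?_, ?_⟩ <;> linarith [h.1, h.2.1, h.2.2.1, h.2.2.2]
  · have hn : ∀ p : E, p 0 ^ 2 + p 1 ^ 2 + p 2 ^ 2 < 100 → ‖p‖ < 10 := fun p hp => by
      rw [EuclideanSpace.norm_eq, Real.sqrt_lt' (by norm_num)]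
      simp only [Fin.sum_univ_three, Real.norm_eq_abs, sq_abs]
      linarith
    simp only [reqs, List.forall_mem_cons, List.not_mem_nil, false_imp_iff, implies_true, and_true]
    refine ⟨⟨_, rfl, hn _ ?_⟩, ⟨_, rfl, hn _ ?_⟩, ⟨_, rfl, hn _ ?_⟩, ⟨_, rfl, hn _ ?_⟩,
      ⟨_, rfl, hn _ ?_⟩, ⟨_, rfl, hn _ ?_⟩⟩ <;> simp [pos, vx, vy] <;> norm_num

end Pool.Agent.MP_082264_lc.Rb.Fr
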