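import Pool.Agent.MP_082264_lc.Rb.MDefs

/-! Numbers, clocked derivations and the strict step of the model. -/

set_option autoImplicit false

namespace Pool.Agent.MP_082264_lc.Rb

open Set Function

variable {ι : Type}

def ok (Dp : ι → Gr → Prop) : Rule ι → Gr → Prop
  | .base _, v => v = fun _ => 0
  | .up c i _, v => ∃ v', v = inc c v' ∧ Dp i v'
  | .down c i _, v => Dp i (inc c v)
  | .inter i l _, v => Dp i v ∧ Dp l v

/-- Facts with a derivation of depth below `t`. -/
def Prev (R : List (Rule ι)) : ℕ → ι → Gr → Prop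
  | 0, _, _ => False
  | t + 1, k, v => ∃ r ∈ R, head r = k ∧ ok (Prev R t) r v

theorem ok_mono {A B : ι → Gr → Prop} (h : ∀ k v, A k v → B k v) (r : Rule ι) (v : Gr)
    (hr : ok A r v) : ok B r v := by
  cases r with
  | base j => exact hr
  | up c i j => exact hr.imp fun v' hv => ⟨hv.1, h _ _ hv.2⟩
  | down c i j => exact h _ _ hr
  | inter i l j => exact ⟨h _ _ hr.1, h _ _ hr.2⟩

theorem prev_succ (R : List (Rule ι)) (t : ℕ) : ∀ k v, Prev R t k v → Prev R (t + 1) k v := by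
  induction t with
  | zero => exact fun _ _ h => h.elim
  | succ t ih => exact fun k v ⟨r, hr, e, h⟩ => ⟨r, hr, e, ok_mono ih r v h⟩

theorem prev_mono (R : List (Rule ι)) {t t' : ℕ} (h : t ≤ t') (k : ι) (v : Gr)
    (hp : Prev R t k v) : Prev R t' k v := by
  induction h with
  | refl => exact hp
  | step _ ih => exact prev_succ R _ k v ih

theorem prev_model (R : List (Rule ι)) : Model R fun k => {v | ∃ t, Prev R t k v} := by
  intro r hr
  cases r with
  | base j => exact ⟨1, _, hr, rfl, rfl⟩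
  | up c i j => exact fun v ⟨t, ht⟩ => ⟨t + 1, _, hr, rfl, v, rfl, ht⟩
  | down c i j => exact fun v ⟨t, ht⟩ => ⟨t + 1, _, hr, rfl, ht⟩
  | inter i l j =>
    exact fun v ⟨⟨t, ht⟩, ⟨t', ht'⟩⟩ => ⟨max t t' + 1, _, hr, rfl,
      prev_mono R (le_max_left _ _) _ _ ht, prev_mono R (le_max_right _ _) _ _ ht'⟩

/-- The abscissa of a grid point. -/
def xv (v : Gr) (t : ℕ) : ℕ := tn v * 510510 ^ t

theorem xv_inc (c : Co) (v : Gr) (t : ℕ) : xv (inc c v) t = pr c * xv v t := by
  simp [xv, tn_inc, mul_assoc]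

theorem xv_succ (v : Gr) (t : ℕ) : xv v (t + 1) = 510510 * xv v t := by
  simp only [xv]; ring

theorem tn_pos (v : Gr) : 0 < tn v :=
  Finset.prod_pos fun c _ => pow_pos (pr_prime c).pos _

theorem xv_pos (v : Gr) (t : ℕ) : 0 < xv v t := Nat.mul_pos (tn_pos v) (by positivity)

theorem xv_zero : xv (fun _ => 0) 0 = 1 := by simp [xv, tn_zero]

theorem xv_inj {v v' : Gr} {t t' : ℕ} (h : xv v t = xv v' t') : v = v' ∧ t = t' := by
  have h17 : Nat.Prime 17 := by norm_num
  have key : ∀ (v : Gr) (t : ℕ), (xv v t).factorization 17 = t := by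
    intro v t
    have h1 : ¬ 17 ∣ tn v * 30030 ^ t := by
      intro hd
      rcases (h17.dvd_mul).1 hd with hd | hd
      · obtain ⟨c, -, hc⟩ := (h17.prime.dvd_finsetProd_iff _).1 hd
        have := h17.dvd_of_dvd_pow hc
        revert this
        fin_cases c <;> simp [pr]
      · exact absurd (h17.dvd_of_dvd_pow hd) (by norm_num)
    have h2 : xv v t = 17 ^ t * (tn v * 30030 ^ t) := by
      rw [xv, show (510510 : ℕ) = 17 * 30030 from rfl, mul_pow]; ring
    rw [h2, Nat.factorization_mul (by positivity) (Nat.mul_pos (tn_pos v) (by positivity)).ne',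
      Finsupp.add_apply, h17.factorization_pow, Nat.factorization_eq_zero_of_not_dvd h1]
    simp
  obtain rfl : t = t' := by rw [← key v t, h, key]
  exact ⟨tn_inj (Nat.eq_of_mul_eq_mul_right (by positivity) h), rfl⟩

def prL : Option Co → ℕ
  | none => 17
  | some c => pr c

theorem two_le_prL (c : Option Co) : 2 ≤ prL c := by
  cases c with
  | none => norm_num [prL]
  | some c => exact (pr_prime c).two_le

/-- The ratios of the homologies. -/
noncomputable def mu (δ : ℝ) : Hm → ℝ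
  | (i, some c) => if i = 1 then prL c else if i = 2 then (prL c : ℝ) ^ 2 else (1 + δ) ^ 2
  | (i, none) => if i = 0 then 510510 ^ 2 * (1 + δ) else 510510 * (1 + δ) ^ 2

theorem one_lt_mu' {δ : ℝ} (hδ : 0 < δ) (h : Hm) : 1 < mu δ h := by
  obtain ⟨i, _ | c⟩ := h
  · simp only [mu]
    split_ifs <;> nlinarith
  · have : (2 : ℝ) ≤ prL c := by exact_mod_cast two_le_prL c
    simp only [mu]
    split_ifs <;> nlinarith

/-- The word acts as the dilation with ratio `l`. -/
def Scal (δ : ℝ) (u : List Hm) (l : ℕ) : Prop := ∀ i, sc (mu δ) u i = ![1, (l : ℝ), (l : ℝ) ^ 2] i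

theorem scal_nil (δ : ℝ) : Scal δ [] 1 := fun i => by fin_cases i <;> simp [sc]

theorem scal_gw (δ : ℝ) (c : Option Co) : Scal δ (gw c) (prL c) := fun i => by
  fin_cases i <;> simp [sc, gw, mu]

theorem Scal.append {δ : ℝ} {u u' : List Hm} {l l' : ℕ} (h : Scal δ u l) (h' : Scal δ u' l') :
    Scal δ (u ++ u') (l * l') := fun i => by
  rw [sc_append, h i, h' i]
  fin_cases i <;> simp [mul_pow]

theorem scal_tw (δ : ℝ) : Scal δ tw 510510 := fun i => by
  rw [tw, sc_append, sc_flat, scal_gw δ none i]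
  simp only [scal_gw δ _ i]
  fin_cases i <;> simp [List.finRange_succ, prL, pr] <;> norm_num

theorem scal_bw (δ : ℝ) (c : Co) : ∃ l, 2 ≤ l ∧ l * pr c = 510510 ∧ Scal δ (bw c) l := by
  have h1 : 510510 / pr c * pr c = 510510 := by fin_cases c <;> simp [pr]
  refine ⟨510510 / pr c, by fin_cases c <;> simp [pr], h1, fun i => ?_⟩
  have h2 := sc_bw (mu δ) c i
  rw [scal_tw δ i, scal_gw δ (some c) i] at h2
  have h3 : ((510510 / pr c : ℕ) : ℝ) * pr c = 510510 := by exact_mod_cast h1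
  have h4 : (pr c : ℝ) ≠ 0 := by exact_mod_cast (pr_prime c).ne_zero
  generalize ((510510 / pr c : ℕ) : ℝ) = l at h3 ⊢
  fin_cases i
  · simpa using h2
  · simp [prL] at h2 ⊢
    exact mul_right_cancel₀ h4 (h2.trans h3.symm)
  · simp [prL] at h2 ⊢
    refine mul_right_cancel₀ (pow_ne_zero 2 h4) (h2.trans ?_)
    rw [← mul_pow, h3]

def el (x η : ℝ) : Fin 3 → ℝ := ![x * (x - η), -2 * (x + η), 1]

def cutv (c : ℝ) : Fin 3 → ℝ := ![-c, -c, 1]

def forms (c e : ℝ) (F : Set ℝ) : Set (Fin 3 → ℝ) :=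
  insert (cutv c) ((fun x => el x (e * c)) '' F)

theorem el_lt {x η η' : ℝ} (hx : 0 < x) (h : η' < η) {w : Fin 3 → ℝ} (hw : ∀ i, 0 ≤ w i)
    (hs : 0 < w 0 + w 1 + w 2) (h0 : 0 ≤ dot (el x η) w) : 0 < dot (el x η') w := by
  have h1 := hw 0
  have h2 := hw 1
  simp [dot, el] at h0 ⊢
  rcases (add_nonneg h1 h2).eq_or_lt with e | e
  · have e1 : w 0 = 0 := by linarith
    have e2 : w 1 = 0 := by linarith
    rw [e1, e2] at hs ⊢
    simpa using hs
  · have : 0 < x * w 0 + 2 * w 1 := by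
      rcases h1.eq_or_lt with e1 | e1
      · rw [← e1] at e ⊢; linarith
      · positivity
    nlinarith [mul_pos (sub_pos.2 h) this]

theorem cut_lt {c c' : ℝ} (h : c' < c) {w : Fin 3 → ℝ} (hw : ∀ i, 0 ≤ w i)
    (hs : 0 < w 0 + w 1 + w 2) (h0 : 0 ≤ dot (cutv c) w) : 0 < dot (cutv c') w := by
  have h1 := hw 0
  have h2 := hw 1
  simp [dot, cutv] at h0 ⊢
  rcases (add_nonneg h1 h2).eq_or_lt with e | e
  · have e1 : w 0 = 0 := by linarith
    have e2 : w 1 = 0 := by linarith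
    rw [e1, e2] at hs ⊢
    simpa using hs
  · nlinarith [mul_pos (sub_pos.2 h) e]

theorem hull_num {c c' e : ℝ} {l : ℕ} {F F' : Set ℝ} {w : Fin 3 → ℝ} (hw : ∀ i, 0 ≤ w i)
    (hs : 0 < w 0 + w 1 + w 2) (hl : 1 ≤ l) (hc : 0.22 ≤ c) (hc1 : c ≤ 0.25) (hc' : c' < l * c)
    (he : 0 < e) (he1 : e ≤ 0.2) (hF : ∀ x ∈ F', 0 < x ∧ (x / l ≤ 1 / 20 ∨ x / l ∈ F))
    (h : Cut (forms c e F) fun i => w i / ![1, (l : ℝ), (l : ℝ) ^ 2] i) :
    ∀ f ∈ forms c' e F', 0 < dot f w := by
  have hl1 : (1 : ℝ) ≤ l := by exact_mod_cast hl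
  have hl0 : (0 : ℝ) < l := by linarith
  set w' : Fin 3 → ℝ := fun i => w i / ![1, (l : ℝ), (l : ℝ) ^ 2] i with hw'
  have p' : ∀ i, 0 ≤ w' i := fun i => div_nonneg (hw i) (by fin_cases i <;> simp)
  have e0 : w 0 = w' 0 := by simp [hw']
  have e1 : w 1 = l * w' 1 := by simp [hw']; field_simp
  have e2 : w 2 = l ^ 2 * w' 2 := by simp [hw']; field_simp
  have s' : 0 < w' 0 + w' 1 + w' 2 := by
    by_contra hn
    have a0 := p' 0; have a1 := p' 1; have a2 := p' 2
    rw [e0, e1, e2, show w' 0 = 0 by linarith, show w' 1 = 0 by linarith,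
      show w' 2 = 0 by linarith] at hs
    simp at hs
  have hcut := h _ (mem_insert _ _)
  rintro f (rfl | ⟨x, hx, rfl⟩)
  · refine cut_lt hc' hw hs ?_
    simp [dot, cutv] at hcut ⊢
    rw [e0, e1, e2]
    have a0 := p' 0
    nlinarith [mul_nonneg (mul_nonneg hl0.le (sub_nonneg.2 hl1)) (mul_nonneg (by linarith : 0 ≤ c) a0),
      mul_nonneg (sq_nonneg (l : ℝ)) (by linarith : 0 ≤ -(c * w' 0) + -(c * w' 1) + w' 2)]
  · obtain ⟨x0, hx'⟩ := hF x hx
    have y0 : 0 < x / l := by positivity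
    have hy : 0 ≤ dot (el (x / l) (e * c)) w' := by
      rcases hx' with hx' | hx'
      · simp [dot, cutv, el] at hcut ⊢
        have a0 := p' 0; have a1 := p' 1
        have b0 : e * c ≤ 0.05 := by nlinarith
        have b1 : 0 < e * c := by positivity
        generalize x / l = y at *
        generalize e * c = η at *
        nlinarith [mul_nonneg a0 (by nlinarith : 0 ≤ c + y * (y - η)),
          mul_nonneg a1 (by linarith : 0 ≤ c - 2 * (y + η))]
      · exact h _ (mem_insert_of_mem _ ⟨_, hx', rfl⟩)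
    have h2 := el_lt y0 (η' := e * c' / l) (by
      rw [div_lt_iff₀ hl0]; nlinarith) p' s' hy
    have h3 : dot (el x (e * c')) w = l ^ 2 * dot (el (x / l) (e * c' / l)) w' := by
      simp only [dot, el, Matrix.cons_val_zero, Matrix.cons_val_one, Matrix.cons_val, e0, e1, e2]
      field_simp
    rw [h3]
    positivity

end Pool.Agent.MP_082264_lc.Rb
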