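import Pool.Agent.MP_082264_lc.Rb.MNum

/-! The closed model of a derivable input. -/

set_option autoImplicit false

namespace Pool.Agent.MP_082264_lc.Rb

open Set Function

variable {ι : Type}

theorem wt_sum (p : E) : wt p 0 + wt p 1 + wt p 2 = 1 := by
  simp [wt, bc]
  ring

theorem continuous_wt (i : Fin 3) : Continuous fun p => wt p i := by
  fin_cases i <;> simp [wt, bc] <;> fun_prop

theorem norm_lt_of_base {p : E} (h : p 2 = 0) (h' : ∀ i, 0 ≤ wt p i) : ‖p‖ < 10 := by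
  have h0 := h' 0; have h1 := h' 1; have h2 := h' 2
  simp [wt, bc] at h0 h1 h2
  rw [EuclideanSpace.norm_eq, Real.sqrt_lt' (by norm_num)]
  simp [Fin.sum_univ_three, h]
  nlinarith

theorem mem_interior_cut {L : Set (Fin 3 → ℝ)} (hL : L.Finite) {p : E}
    (h : ∀ f ∈ L, 0 < dot f (wt p)) : p ∈ interior {q | Cut L (wt q)} := by
  have ho : IsOpen (⋂ f ∈ L, {q | 0 < dot f (wt q)}) := hL.isOpen_biInter fun f _ =>
    isOpen_lt continuous_const (by
      have := continuous_wt 0; have := continuous_wt 1; have := continuous_wt 2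
      unfold dot
      fun_prop)
  have hs : (⋂ f ∈ L, {q | 0 < dot f (wt q)}) ⊆ {q | Cut L (wt q)} := fun q hq f hf =>
    le_of_lt (mem_iInter₂.1 hq f hf)
  exact interior_maximal hs ho (mem_iInter₂.2 h)

theorem mdl_K (P : Par ι) {d : Nd ι} (hd : ¬ ray d) :
    mdl P (K d) = {q | Cut (lin P.Lf d) (wt q)} := by
  simp [mdl, hd]

theorem cut_of_mem {P : Par ι} {s : Nd ι} {u : List Hm} {p : E} (h : p ∈ mdl P (.Z s u))
    (h2 : p 2 = 0) : Cut (lin P.Lf s) fun i => wt p i / sc P.μ u i := by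
  cases u with
  | nil => simpa [sc] using h.2
  | cons a u => simpa [h2] using h.2

theorem stable_strict {P : Par ι} {A : List (Nm ι)} (hA : D ∈ A) {d : Nd ι} (hd : ¬ ray d)
    (hf : (lin P.Lf d).Finite)
    (h : ∀ p : E, p 2 = 0 → (∀ i, 0 ≤ wt p i) → (∀ a ∈ A, p ∈ mdl P a) →
      ∀ f ∈ lin P.Lf d, 0 < dot f (wt p)) : Stable (mdl P) rk (A, [K d]) := by
  refine ⟨List.ne_nil_of_mem hA, Or.inl fun p hp => ?_⟩
  obtain ⟨h1, h2⟩ := hp _ hA
  refine ⟨norm_lt_of_base h1 h2, K d, List.mem_singleton_self _, ?_⟩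
  rw [mdl_K P hd]
  exact mem_interior_cut hf (h p h1 h2 hp)

noncomputable def cst : Nd ι → ℝ
  | .ts _ => 0.25
  | .ru _ => 0.24
  | .pr _ => 0.23
  | _ => 0.22

/-- The finite window of abscissas. -/
def Ext (M : ℕ) : Set ℝ :=
  (fun q : ℕ × ℕ => (q.1 : ℝ) / q.2) '' (Icc 1 M ×ˢ Icc 1 (20 * M))

theorem ext_finite (M : ℕ) : (Ext M).Finite := ((finite_Icc _ _).prod (finite_Icc _ _)).image _

theorem ext_pos {M : ℕ} {x : ℝ} (h : x ∈ Ext M) : 0 < x := by
  obtain ⟨⟨a, b⟩, ⟨⟨h1, -⟩, h2, -⟩, rfl⟩ := h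
  have : (0 : ℝ) < a := by exact_mod_cast h1
  have : (0 : ℝ) < b := by exact_mod_cast h2
  positivity

theorem ext_nat {M N : ℕ} (h0 : 0 < N) (h : N ≤ M) : (N : ℝ) ∈ Ext M :=
  ⟨(N, 1), ⟨⟨h0, h⟩, le_rfl, by omega⟩, by simp⟩

theorem ext_div {M l : ℕ} (hl : 1 ≤ l) {x : ℝ} (h : x ∈ Ext M) :
    x / l ≤ 1 / 20 ∨ x / l ∈ Ext M := by
  obtain ⟨⟨a, b⟩, ⟨⟨h1, h2⟩, h3, h4⟩, rfl⟩ := h
  simp only at h1 h2 h3 h4 ⊢
  by_cases hb : b * l ≤ 20 * M
  · exact Or.inr ⟨(a, b * l), ⟨⟨h1, h2⟩, Nat.mul_pos h3 hl, hb⟩, by simp [div_div]⟩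
  · left
    have : 20 * a ≤ b * l := by omega
    have h5 : (20 : ℝ) * a ≤ b * l := by exact_mod_cast this
    have : (0 : ℝ) < b := by exact_mod_cast h3
    have : (0 : ℝ) < l := by exact_mod_cast hl
    rw [div_div, div_le_div_iff₀ (by positivity) (by norm_num)]
    linarith

/-- The abscissas that are cut off from a node. -/
def Fs (R : List (Rule ι)) (M : ℕ) : Nd ι → Set ℝ
  | .ts j => {x | x ∈ Ext M ∧ ¬ ∃ v t, InT j v t ∧ x = xv v t}
  | .ru r => {x | ∃ v t, ok (Prev R t) r v ∧ x = xv v t ∧ xv v t ≤ M}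
  | .pr k => {x | ∃ v t, Prev R (t + 1) k v ∧ x = xv v t ∧ xv v t ≤ M}
  | _ => ∅

theorem fs_ext (R : List (Rule ι)) (M : ℕ) (s : Nd ι) : Fs R M s ⊆ Ext M := by
  cases s with
  | ts j => exact fun x hx => hx.1
  | ru r => rintro _ ⟨v, t, -, rfl, h⟩; exact ext_nat (xv_pos v t) h
  | pr k => rintro _ ⟨v, t, -, rfl, h⟩; exact ext_nat (xv_pos v t) h
  | _ => exact empty_subset _

theorem forms_finite (c e : ℝ) {F : Set ℝ} (h : F.Finite) : (forms c e F).Finite :=
  (h.image _).insert _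

/-- The data of the model. -/
noncomputable def par (R : List (Rule ι)) (v₀ : Gr) (t₀ : ℕ) (e θ : ℝ) : Par ι where
  μ := mu (θ / 6)
  Lf := fun s => match s with
    | .st => insert (cutv 0.22)
        ((fun t => el (xv v₀ t) ((2 * t + 1) * θ * xv v₀ t)) '' Iic t₀)
    | s => forms (cst s) e (Fs R (xv v₀ t₀) s)
  LY := (fun t => el (xv v₀ t) ((2 * t + 2) * θ * xv v₀ t)) '' Iio t₀
  M := 4 * xv v₀ t₀ + 2

/-- Ordinary nodes. -/
def Ord : Nd ι → Prop
  | .ts _ => True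
  | .ru _ => True
  | .pr _ => True
  | _ => False

variable {R : List (Rule ι)} {v₀ : Gr} {t₀ : ℕ} {e θ : ℝ}

theorem lin_ord {s : Nd ι} (h : Ord s) :
    lin (par R v₀ t₀ e θ).Lf s = forms (cst s) e (Fs R (xv v₀ t₀) s) := by
  cases s <;> first | rfl | exact h.elim

theorem Ord.not_ray {s : Nd ι} (h : Ord s) : ¬ ray s := by
  cases s <;> first | exact h.elim | exact id

theorem Ord.finite {s : Nd ι} (h : Ord s) : (lin (par R v₀ t₀ e θ).Lf s).Finite := by
  rw [lin_ord h]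
  exact forms_finite _ _ ((ext_finite _).subset (fs_ext R _ s))

theorem cst_bd (s : Nd ι) : 0.22 ≤ cst s ∧ cst s ≤ 0.25 := by
  cases s <;> simp [cst] <;> norm_num

theorem stable_hull (he : 0 < e) (he1 : e ≤ 0.2)
    (himg : ∀ s u, ∀ p ∈ imgP s u, Stable (mdl (par R v₀ t₀ e θ)) rk p) {s d : Nd ι}
    (hs : Ord s) (hd : Ord d) {u : List Hm} {l : ℕ} (hu : Scal (θ / 6) u l) (hl : 1 ≤ l)
    (hc : cst d < l * cst s)
    (hF : ∀ x ∈ Fs R (xv v₀ t₀) d, x / l ≤ 1 / 20 ∨ x / l ∈ Fs R (xv v₀ t₀) s) :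
    ∀ p ∈ hullP s u (K d), Stable (mdl (par R v₀ t₀ e θ)) rk p := by
  rw [hullP, List.forall_mem_cons]
  refine ⟨stable_strict (by simp) hd.not_ray hd.finite fun p h1 h2 h3 => ?_, himg s u⟩
  have h4 := cut_of_mem (h3 (.Z s u) (by simp)) h1
  rw [lin_ord hs] at h4
  rw [lin_ord hd]
  refine hull_num h2 (by rw [wt_sum]; exact one_pos) hl (cst_bd s).1 (cst_bd s).2 hc he he1
    (fun x hx => ⟨ext_pos (fs_ext R _ d hx), hF x hx⟩) ?_
  simpa only [par, hu _] using h4

theorem cst_two {s d : Nd ι} {l : ℕ} (hl : 2 ≤ l) : cst d < l * cst s := by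
  have h1 := cst_bd s
  have h2 := cst_bd d
  have : (2 : ℝ) ≤ l := by exact_mod_cast hl
  nlinarith

theorem stable_tests (he : 0 < e) (he1 : e ≤ 0.2)
    (hb : ∀ x ∈ Ext (xv v₀ t₀), x ≠ 1 → e * (2 + x) < (1 - x) ^ 2)
    (himg : ∀ s u, ∀ p ∈ imgP s u, Stable (mdl (par R v₀ t₀ e θ)) rk p) :
    ∀ p ∈ testP, Stable (mdl (par R v₀ t₀ e θ)) rk p := by
  simp only [testP, List.forall_mem_flatMap, mem_all, true_imp_iff, List.forall_mem_cons,
    List.mem_filter, true_and, decide_eq_true_eq]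
  intro j
  refine ⟨⟨by simp, Or.inl fun p hp => ?_⟩, fun g hg => ?_⟩
  · obtain ⟨h1, h2⟩ := hp _ (List.mem_singleton_self _)
    simp [lin, Cut, dot] at h2
    have h3 := wt_sum p
    have w0 : wt p 0 = 1 / 3 := by linarith [h2.1, h2.2.1, h2.2.2.1, h2.2.2.2]
    have w1 : wt p 1 = 1 / 3 := by linarith [h2.1, h2.2.1, h2.2.2.1, h2.2.2.2]
    have w2 : wt p 2 = 1 / 3 := by linarith [h2.1, h2.2.1, h2.2.2.1, h2.2.2.2]
    refine ⟨norm_lt_of_base (h1 trivial) fun i => by fin_cases i <;> simp [w0, w1, w2],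
      K (.ts j), List.mem_singleton_self _, ?_⟩
    rw [mdl_K _ (Ord.not_ray (s := .ts j) trivial)]
    refine mem_interior_cut (Ord.finite (s := .ts j) trivial) ?_
    rw [lin_ord (s := .ts j) trivial]
    rintro f (rfl | ⟨x, hx, rfl⟩)
    · simp [dot, cutv, cst, w0, w1, w2]
      norm_num
    · have x0 := ext_pos hx.1
      have := hb x hx.1 (by
        rintro rfl
        exact hx.2 ⟨fun _ => 0, 0, by rcases j with _ | _ | c <;> trivial, by simp [xv_zero]⟩)
      simp [dot, el, cst, w0, w1, w2]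
      nlinarith [mul_pos he (by linarith : 0 < 2 + x)]
  · obtain ⟨l, l2, hu, hl⟩ : ∃ l : ℕ, 2 ≤ l ∧ Scal (θ / 6) (ew g) l ∧
        ∀ v t, InT j v t → ∃ v' t', InT j v' t' ∧ xv v' t' = l * xv v t := by
      cases g with
      | none =>
        refine ⟨_, by norm_num, scal_tw _, fun v t h => ⟨v, t + 1, ?_, xv_succ v t⟩⟩
        rcases j with _ | _ | c
        · trivial
        · exact absurd rfl hg
        · exact h
      | some c =>
        refine ⟨_, two_le_prL _, scal_gw _ (some c), fun v t h => ⟨inc c v, t, ?_, xv_inc c v t⟩⟩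
        rcases j with _ | _ | d
        · trivial
        · exact h
        · have hd : d ≠ c := fun e => hg (by rw [e])
          simpa [InT, inc, update_of_ne hd] using h
    refine stable_hull he he1 himg (by trivial) (by trivial) hu (by omega) (cst_two l2) fun x hx => ?_
    refine (ext_div (by omega) hx.1).imp_right fun h => ⟨h, ?_⟩
    rintro ⟨v, t, h1, h2⟩
    obtain ⟨v', t', h3, h4⟩ := hl v t h1
    refine hx.2 ⟨v', t', h3, ?_⟩
    have : (l : ℝ) ≠ 0 := by exact_mod_cast (by omega : l ≠ 0)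
    rw [h4, Nat.cast_mul, ← h2]
    field_simp

theorem stable_horn (he : 0 < e) (he1 : e ≤ 0.2) (o : ι)
    (himg : ∀ s u, ∀ p ∈ imgP s u, Stable (mdl (par R v₀ t₀ e θ)) rk p) :
    ∀ p ∈ hornP R o, Stable (mdl (par R v₀ t₀ e θ)) rk p := by
  simp only [hornP, List.forall_mem_append, List.forall_mem_map, List.forall_mem_flatMap]
  refine ⟨fun k _ => stable_strict (by simp) (Ord.not_ray (s := .pr k) trivial)
    (Ord.finite (s := .pr k) trivial) fun p h1 h2 h3 => ?_, fun r _ q hq => ?_⟩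
  · have hs : 0 < wt p 0 + wt p 1 + wt p 2 := by rw [wt_sum]; exact one_pos
    rw [lin_ord (s := .pr k) trivial]
    rintro f (rfl | ⟨x, ⟨v, t, ⟨r, hr, hk, hok⟩, hx, hM⟩, rfl⟩)
    · have := (h3 (K (.ts none)) (by simp)).2
      rw [lin_ord (s := .ts none) trivial] at this
      exact cut_lt (by simp [cst]; norm_num) h2 hs (this _ (mem_insert _ _))
    · have := (h3 (K (.ru r)) (by simp [hr, hk])).2
      rw [lin_ord (s := .ru r) trivial] at this
      have x0 : 0 < x := by rw [hx]; exact_mod_cast xv_pos v t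
      exact el_lt x0 (mul_lt_mul_of_pos_left (by simp [cst]; norm_num) he) h2 hs
        (this _ (mem_insert_of_mem _ ⟨x, ⟨v, t, hok, hx, hM⟩, rfl⟩))
  have hid : ∀ j, (∀ v t, ok (Prev R t) r v → ¬ InT j v t) →
      ∀ p ∈ hullP (.ts j) [] (K (.ru r)), Stable (mdl (par R v₀ t₀ e θ)) rk p := by
    intro j hj
    refine stable_hull he he1 himg (by trivial) (by trivial) (scal_nil _) le_rfl (by simp [cst]; norm_num) ?_
    rintro _ ⟨v, t, h1, rfl, h2⟩
    refine Or.inr ⟨by simpa using ext_nat (xv_pos v t) h2, ?_⟩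
    rintro ⟨v', t', h3, h4⟩
    obtain ⟨rfl, rfl⟩ := xv_inj (show xv v t = xv v' t' by simpa using h4)
    exact hj v t h1 h3
  have hpr : ∀ i u l, 2 ≤ l → Scal (θ / 6) u l → (∀ v t, ok (Prev R t) r v →
      ∃ v' t', Prev R (t' + 1) i v' ∧ xv v t = l * xv v' t') →
      ∀ p ∈ hullP (.pr i) u (K (.ru r)), Stable (mdl (par R v₀ t₀ e θ)) rk p := by
    intro i u l l2 hu hj
    refine stable_hull he he1 himg (by trivial) (by trivial) hu (by omega) (cst_two l2) ?_
    rintro _ ⟨v, t, h1, rfl, h2⟩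
    obtain ⟨v', t', h3, h4⟩ := hj v t h1
    have : (l : ℝ) ≠ 0 := by exact_mod_cast (by omega : l ≠ 0)
    refine Or.inr ⟨v', t', h3, by rw [h4, Nat.cast_mul]; field_simp, ?_⟩
    exact (Nat.le_mul_of_pos_left _ (by omega)).trans (h4 ▸ h2)
  have hz : ∀ {t i v}, Prev R t i v → ∃ t', t = t' + 1 := fun {t i v} h => by
    cases t with
    | zero => exact h.elim
    | succ t => exact ⟨t, rfl⟩
  cases r with
  | base j =>
    obtain ⟨c, -, rfl⟩ := List.mem_map.1 hq
    refine stable_hull he he1 himg (by trivial) (by trivial) (scal_gw _ (some c))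
      (one_le_two.trans (two_le_prL _)) (cst_two (two_le_prL _)) ?_
    rintro _ ⟨v, t, h1, rfl, h2⟩
    refine (ext_div (one_le_two.trans (two_le_prL _)) (ext_nat (xv_pos v t) h2)).imp_right
      fun h => ⟨h, ?_⟩
    rintro ⟨v', t', -, h4⟩
    have h5 : (pr c : ℝ) ≠ 0 := by exact_mod_cast (pr_prime c).ne_zero
    have h6 : xv v t = xv (inc c v') t' := by
      rw [xv_inc]
      have : (xv v t : ℝ) = pr c * xv v' t' := by rw [← h4, prL]; field_simp
      exact_mod_cast this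
    have h7 := congrFun ((xv_inj h6).1.symm.trans h1) c
    simp [inc] at h7
  | up c i j =>
    simp only [body, List.mem_cons, List.not_mem_nil, or_false] at hq
    rcases hq with rfl | rfl | rfl
    · refine hid _ ?_
      rintro _ t ⟨v', rfl, -⟩
      simp [InT, inc]
    · refine hid _ ?_
      rintro _ t ⟨v', rfl, h⟩
      obtain ⟨t', rfl⟩ := hz h
      simp [InT]
    · refine hpr _ _ _ (by have := two_le_prL (some c); omega)
        ((scal_gw _ (some c)).append (scal_tw _)) ?_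
      rintro _ t ⟨v', rfl, h⟩
      obtain ⟨t', rfl⟩ := hz h
      exact ⟨v', t', h, by rw [xv_inc, xv_succ, prL, mul_assoc]⟩
  | down c i j =>
    simp only [body, List.mem_cons, List.not_mem_nil, or_false] at hq
    rcases hq with rfl | rfl
    · refine hid _ fun v t h => ?_
      obtain ⟨t', rfl⟩ := hz h
      simp [InT]
    · obtain ⟨l, l2, l3, hu⟩ := scal_bw (θ / 6) c
      refine hpr _ _ _ l2 hu fun v t h => ?_
      obtain ⟨t', rfl⟩ := hz h
      exact ⟨_, t', h, by rw [xv_inc, xv_succ, ← mul_assoc, l3]⟩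
  | inter i l j =>
    simp only [body, List.mem_cons, List.not_mem_nil, or_false] at hq
    rcases hq with rfl | rfl | rfl
    · refine hid _ fun v t h => ?_
      obtain ⟨t', rfl⟩ := hz h.1
      simp [InT]
    · refine hpr _ _ _ (by norm_num) (scal_tw _) fun v t h => ?_
      obtain ⟨t', rfl⟩ := hz h.1
      exact ⟨v, t', h.1, xv_succ v t'⟩
    · refine hpr _ _ _ (by norm_num) (scal_tw _) fun v t h => ?_
      obtain ⟨t', rfl⟩ := hz h.1
      exact ⟨v, t', h.2, xv_succ v t'⟩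

theorem el_back {x ε ε' L A B : ℝ} (hx : 0 ≤ x) (h1 : ε' ≤ ε) (h2 : ε' ≤ 1) (hA : L ^ 2 ≤ A)
    (hB : B * (1 + ε') ≤ L * (1 + ε)) {a b c : ℝ} (ha : 0 ≤ a) (hb : 0 ≤ b)
    (h : 0 ≤ dot (el (L * x) (ε * (L * x))) ![a, b, c]) :
    0 ≤ dot (el x (ε' * x)) ![A * a, B * b, c] := by
  simp [dot, el] at h ⊢
  have e1 : L ^ 2 * (1 - ε) ≤ A * (1 - ε') := by nlinarith [sq_nonneg L]
  nlinarith [mul_nonneg (mul_nonneg (sq_nonneg x) ha) (sub_nonneg.2 e1),
    mul_nonneg (mul_nonneg hx hb) (sub_nonneg.2 hB)]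

theorem wt_top : wt (pos (.V 2)) = ![0, 0, 1] := by
  funext i
  fin_cases i <;> simp [wt, bc, pos, vx, vy]

theorem lin_st : lin (par R v₀ t₀ e θ).Lf .st = insert (cutv 0.22)
    ((fun t => el (xv v₀ t) ((2 * t + 1) * θ * xv v₀ t)) '' Iic t₀) := rfl

theorem stable_back (h0 : 0 < θ) (h1 : (2 * t₀ + 3) * θ ≤ 1)
    (himg : ∀ s u, ∀ p ∈ imgP s u, Stable (mdl (par R v₀ t₀ e θ)) rk p) {u : List Hm}
    (hu : u.length ≤ 3) (a0 : 510510 ^ 2 ≤ sc (mu (θ / 6)) u 0)
    (a1 : sc (mu (θ / 6)) u 1 = 510510 * (1 + θ / 6) ^ 2) (a2 : sc (mu (θ / 6)) u 2 = 1) :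
    ∀ p ∈ hullP .st u (.fx .Y), Stable (mdl (par R v₀ t₀ e θ)) rk p := by
  rw [hullP, List.forall_mem_cons]
  refine ⟨⟨by simp, Or.inr ⟨fun p hp => ⟨_, List.mem_singleton_self _, ?_⟩, ?_⟩⟩, himg _ u⟩
  · obtain ⟨h2, h3⟩ := hp D (by simp)
    have h4 := cut_of_mem (hp (.Z .st u) (by simp)) h2
    rw [lin_st] at h4
    rintro _ ⟨t, ht, rfl⟩
    have h5 := h4 _ (mem_insert_of_mem _ ⟨t + 1, Nat.succ_le_of_lt ht, rfl⟩)
    have ht' : (t : ℝ) + 1 ≤ t₀ := by exact_mod_cast Nat.succ_le_of_lt ht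
    have t0 : (0 : ℝ) ≤ t := Nat.cast_nonneg t
    have hμ := one_lt_mu' (show 0 < θ / 6 by positivity)
    have s0 := sc_pos hμ u 0
    have s1 := sc_pos hμ u 1
    have b1 : (2 * t + 2) * θ ≤ 1 := by nlinarith
    have b2 : θ ≤ 1 := by nlinarith
    have := el_back (x := xv v₀ t) (ε := (2 * t + 3) * θ) (ε' := (2 * t + 2) * θ) (L := 510510)
      (A := sc (mu (θ / 6)) u 0) (B := sc (mu (θ / 6)) u 1) (Nat.cast_nonneg _) (by nlinarith) b1
      a0 (by
        rw [a1, mul_assoc]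
        refine mul_le_mul_of_nonneg_left ?_ (by norm_num)
        have c1 : (1 + θ / 6) ^ 2 ≤ 1 + θ / 2 := by nlinarith
        have c2 : 0 ≤ (2 * t + 2) * θ := by positivity
        nlinarith)
      (div_nonneg (h3 0) s0.le) (div_nonneg (h3 1) s1.le) (c := wt p 2) (by
        convert h5 using 2
        · simp only [xv_succ]
          push_cast
          congr 1
          ring
        · funext i
          fin_cases i <;> simp [par, a2])
    convert this using 2
    funext i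
    fin_cases i <;> simp <;> field_simp
  · simp [rk, nb, rfx]
    omega

theorem xv_mono (v : Gr) {t t' : ℕ} (h : t ≤ t') : xv v t ≤ xv v t' :=
  Nat.mul_le_mul_left _ (Nat.pow_le_pow_right (by norm_num) h)

theorem stable_start {o : ι} (h0 : 0 < θ) (h1 : (2 * t₀ + 3) * θ ≤ 1)
    (h2 : (2 * t₀ + 1) * θ * xv v₀ t₀ < e * 0.23) (hd : Prev R (t₀ + 1) o v₀)
    (himg : ∀ s u, ∀ p ∈ imgP s u, Stable (mdl (par R v₀ t₀ e θ)) rk p) :
    ∀ p ∈ startP o, Stable (mdl (par R v₀ t₀ e θ)) rk p := by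
  have hfin : (lin (par R v₀ t₀ e θ).Lf (.st : Nd ι)).Finite := by
    rw [lin_st]
    exact ((finite_Iic _).image _).insert _
  have hx : ∀ t, (0 : ℝ) < xv v₀ t := fun t => by exact_mod_cast xv_pos v₀ t
  simp only [startP, List.forall_mem_append, List.forall_mem_cons]
  refine ⟨⟨stable_back h0 h1 himg (by simp [hp]) ?_ (by simp [hp, sc, mu]) (by simp [hp, sc]),
    stable_back h0 h1 himg (by simp [hn]) ?_ (by simp [hn, sc, mu]) (by simp [hn, sc])⟩,
    ⟨by simp, Or.inr ⟨fun p hp => ⟨_, List.mem_singleton_self _, ?_⟩, by simp [rk, rfx]⟩⟩,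
    stable_strict (by simp) id hfin fun p a1 a2 a3 => ?_,
    ⟨by simp, Or.inl fun p hp => ?_⟩, ⟨by simp, Or.inr ⟨fun p hp => ?_, by simp⟩⟩, by simp⟩
  · simp [hp, sc, mu]
    positivity
  · simp [hn, sc, mu]
    have : 0 < θ / 6 := by positivity
    nlinarith [mul_pos this this, mul_pos this (mul_pos this this)]
  · obtain rfl : p = pos (.V 2) := hp _ (List.mem_singleton_self _)
    rintro _ ⟨t, -, rfl⟩
    simp [wt_top, dot, el]
  · have hs : 0 < wt p 0 + wt p 1 + wt p 2 := by rw [wt_sum]; exact one_pos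
    have b1 : Cut _ (wt p) := a3 (.fx .Y) (by simp)
    have b2 := (a3 (K (.pr o)) (by simp)).2
    rw [lin_ord (s := .pr o) trivial] at b2
    rw [lin_st]
    rintro f (rfl | ⟨t, ht, rfl⟩)
    · exact cut_lt (by simp [cst]; norm_num) a2 hs (b2 _ (mem_insert _ _))
    · rcases (mem_Iic.1 ht).eq_or_lt with rfl | ht
      · exact el_lt (hx _) h2 a2 hs
          (b2 _ (mem_insert_of_mem _ ⟨_, ⟨v₀, t, hd, rfl, le_rfl⟩, rfl⟩))
      · exact el_lt (hx _) (by nlinarith [mul_pos h0 (hx t)]) a2 hs (b1 _ ⟨t, ht, rfl⟩)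
  · obtain ⟨a1, a2⟩ := hp _ (List.mem_singleton_self _)
    refine ⟨norm_lt_of_base a1 a2, ?_⟩
    by_cases hc : wt p 2 < (4 * xv v₀ t₀ + 2) * (wt p 0 + wt p 1)
    · refine ⟨.fx .Wc, by simp, ?_⟩
      have ho : IsOpen {q : E | wt q 2 < (4 * xv v₀ t₀ + 2) * (wt q 0 + wt q 1)} :=
        isOpen_lt (continuous_wt 2) (by
          have := continuous_wt 0; have := continuous_wt 1
          fun_prop)
      have hs : {q : E | wt q 2 < (4 * xv v₀ t₀ + 2) * (wt q 0 + wt q 1)} ⊆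
          mdl (par R v₀ t₀ e θ) (.fx .Wc) := fun q hq => le_of_lt (mem_ofPred_eq ▸ hq :)
      exact interior_maximal hs ho hc
    · refine ⟨K .st, by simp, ?_⟩
      rw [mdl_K _ id]
      refine mem_interior_cut hfin ?_
      rw [lin_st]
      have s1 := wt_sum p
      have w0 := a2 0; have w1 := a2 1
      have m0 := hx t₀
      have w2 : 0 < wt p 2 := by
        by_contra hn
        have := a2 2
        nlinarith
      rintro f (rfl | ⟨t, ht, rfl⟩)
      · simp [dot, cutv]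
        nlinarith [mul_nonneg m0.le (add_nonneg w0 w1)]
      · have c0 := hx t
        have c1 : (xv v₀ t : ℝ) ≤ xv v₀ t₀ := by exact_mod_cast xv_mono v₀ ht
        have c2 : (t : ℝ) ≤ t₀ := by exact_mod_cast ht
        have c3 : (2 * t + 1) * θ ≤ 1 := by nlinarith
        have c4 : (2 * t + 1) * θ * xv v₀ t ≤ xv v₀ t := by nlinarith
        simp only [dot, el, Matrix.cons_val_zero, Matrix.cons_val_one, Matrix.cons_val]
        generalize (2 * t + 1) * θ * xv v₀ t = η at c4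
        rcases (add_nonneg w0 w1).eq_or_lt with z | z
        · rw [show wt p 0 = 0 by linarith, show wt p 1 = 0 by linarith]
          linarith
        · nlinarith [mul_nonneg (mul_nonneg c0.le (sub_nonneg.2 c4)) w0,
            mul_nonneg w1 (by linarith : 0 ≤ 2 * (xv v₀ t₀ : ℝ) - (xv v₀ t + η)),
            mul_nonneg m0.le w0]
  · obtain rfl : p = pos (.V 2) := hp (V 2) (by simp)
    have : wt _ 2 ≤ _ * (wt _ 0 + wt _ 1) := hp (.fx .Wc) (by simp)
    simp [wt_top] at this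
    norm_num at this

theorem stable_last {n : ℕ} (h0 : 0 < θ) (hv : xv v₀ 0 = 2 ^ n) :
    Stable (mdl (par R v₀ t₀ e θ)) rk (lastP n) := by
  refine ⟨by simp [lastP], Or.inr ⟨fun p hp => ?_, by simp [lastP]⟩⟩
  exfalso
  have h1 := (hp (K (.inp n)) (by simp [lastP])).2
  have h2 := (hp (K .st) (by simp [lastP])).2
  rw [lin_st] at h2
  have h3 := h2 _ (mem_insert_of_mem _ ⟨0, Nat.zero_le _, rfl⟩)
  simp [lin, Cut, dot] at h1
  simp [dot, el, hv] at h3
  have h4 : (4 : ℝ) ^ n = (2 ^ n) ^ 2 := by rw [← pow_mul, mul_comm, pow_mul]; norm_num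
  have x0 : (0 : ℝ) < 2 ^ n := by positivity
  rw [h4] at h1
  generalize (2 : ℝ) ^ n = x at *
  have s := wt_sum p
  have w1 : wt p 1 = x * wt p 0 := by linarith [h1.1, h1.2.1]
  have w2 : wt p 2 = x ^ 2 * wt p 0 := by linarith [h1.2.2.1, h1.2.2.2]
  rw [w1, w2] at s h3
  have w0 : 0 < wt p 0 := by
    by_contra hn
    nlinarith [mul_nonneg (by positivity : 0 ≤ 1 + x + x ^ 2) (by linarith : 0 ≤ -wt p 0)]
  nlinarith [mul_pos (mul_pos h0 (pow_pos x0 2)) w0]

theorem model (hF : FrameStmt) : ModelStmt := by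
  intro ι R o n h
  obtain ⟨t, ht⟩ := h _ (prev_model R)
  set v₀ : Gr := update (fun _ => 0) 0 n with hv
  have hd := prev_succ R t o v₀ ht
  obtain ⟨e, ⟨he1, hb⟩, he⟩ : ∃ e : ℝ, (e < 0.2 ∧
      ∀ x ∈ Ext (xv v₀ t), x ≠ 1 → e * (2 + x) < (1 - x) ^ 2) ∧ e ∈ Ioi 0 := by
    have h1 : ∀ᶠ e : ℝ in nhds 0, ∀ x ∈ Ext (xv v₀ t), x ≠ 1 → e * (2 + x) < (1 - x) ^ 2 := by
      refine (Filter.eventually_all_finite (ext_finite _)).2 fun x _ => ?_
      by_cases hx : x = 1
      · simp [hx]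
      have : Filter.Tendsto (fun e : ℝ => e * (2 + x)) (nhds 0) (nhds (0 * (2 + x))) :=
        Filter.tendsto_id.mul_const _
      refine (this.eventually (gt_mem_nhds (a := (1 - x) ^ 2) ?_)).mono fun e he _ => he
      rw [zero_mul]
      exact lt_of_le_of_ne (sq_nonneg _) (pow_ne_zero 2 (sub_ne_zero.2 (Ne.symm hx))).symm
    exact ((((gt_mem_nhds (by norm_num : (0 : ℝ) < 0.2)).and h1).filter_mono
      nhdsWithin_le_nhds).and (self_mem_nhdsWithin (s := Ioi (0 : ℝ)))).exists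
  have he0 : 0 < e := he
  have hx : (0 : ℝ) < xv v₀ t := by exact_mod_cast xv_pos v₀ t
  set θ := min (1 / (2 * t + 3 : ℝ)) (e * 0.2 / ((2 * t + 1) * xv v₀ t)) with hθ
  have h0 : 0 < θ := lt_min (by positivity) (by positivity)
  have h1 : (2 * t + 3) * θ ≤ 1 := by
    have : θ * _ ≤ _ := (le_div_iff₀ (by positivity)).1 (min_le_left _ _ : θ ≤ _)
    linarith
  have h2 : (2 * t + 1) * θ * xv v₀ t < e * 0.23 := by
    have := (le_div_iff₀ (by positivity)).1 (min_le_right _ _ : θ ≤ _)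
    nlinarith
  have hδ : 0 < θ / 6 := by positivity
  obtain ⟨f1, f2, f3, f4, f5, f6⟩ := hF ι (par R v₀ t e θ) (one_lt_mu' hδ)
  refine ⟨_, rk, f1, ?_, f6⟩
  simp only [pats, fixedP, List.forall_mem_append, List.forall_mem_flatMap,
    List.forall_mem_singleton]
  have q := scal_tw (θ / 6)
  refine ⟨⟨⟨⟨⟨f3, f4 ?_ ?_ ?_ ?_⟩, stable_tests he0 he1.le hb f2⟩, stable_horn he0 he1.le o f2⟩,
    stable_start h0 h1 h2 hd f2⟩, fun j _ => f5 ?_ ?_ j, stable_last h0 ?_⟩
  · simp only [sc_append, par, q _]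
    simp [hp, sc, mu]
    nlinarith
  · simp only [sc_append, par, q _]
    simp [hn, sc, mu]
    nlinarith [mul_pos hδ (pow_pos (by linarith : 0 < 1 + θ / 6) 2)]
  · simp only [sc_append, par, q _]
    simp [hp, sc, mu]
    nlinarith
  · simp only [par, q _]
    simp
    norm_num
  · simp [par, mu, prL, pr]
  · simp [par, mu, prL, pr]
    norm_num
  · simp [xv, tn, hv, Fin.prod_univ_six, pr]

end Pool.Agent.MP_082264_lc.Rb
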