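import Mathlib.Analysis.Normed.Module.Ball.Pointwise
import Mathlib.Analysis.Normed.Module.Convex
import Mathlib.Topology.Baire.Lemmas
import Mathlib.Topology.Baire.CompleteMetrizable
import Pool.Agent.MP_082264_lc.Rb.Red

/-!
Thickening: a closed convex solution whose patterns are strict or respect a rank gives a compact
convex solution with the same code as its interior.
-/

set_option autoImplicit false

namespace Pool.Agent.MP_082264_lc.Rb

open Set Function Filter Topology Metric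

/-- A generic parameter of a finite monotone family gives the same code for both versions. -/
theorem exists_generic {α N : Type} [Finite N] (Cl Op : ℝ → N → Set α)
    (h1 : ∀ s i, Op s i ⊆ Cl s i) (h2 : ∀ s s' i, s < s' → 0 < s' → Cl s i ⊆ Op s' i)
    (h3 : ∀ x i, IsOpen {s | x ∈ Op s i}) (h4 : ∀ x i, IsClosed {s | x ∈ Cl s i}) :
    ∃ s ∈ Ioo (1 : ℝ) 2, SameCode (Cl s) (Op s) := by
  let V : Set N → Set ℝ := fun σ =>
    {s | ∃ x, ∀ i, (i ∈ σ → x ∈ Op s i) ∧ (i ∉ σ → x ∉ Cl s i)}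
  have hV : ∀ σ, IsOpen (V σ) := by
    intro σ
    rw [isOpen_iff_mem_nhds]
    rintro s ⟨x, hx⟩
    have : ∀ᶠ s' in 𝓝 s, ∀ i, (i ∈ σ → x ∈ Op s' i) ∧ (i ∉ σ → x ∉ Cl s' i) := by
      refine eventually_all.2 fun i => ?_
      by_cases hi : i ∈ σ
      · filter_upwards [(h3 x i).mem_nhds ((hx i).1 hi)] with s' hs'
        exact ⟨fun _ => hs', fun h => absurd hi h⟩
      · filter_upwards [(h4 x i).isOpen_compl.mem_nhds ((hx i).2 hi)] with s' hs'
        exact ⟨fun h => absurd h hi, fun _ => hs'⟩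
    exact mem_of_superset this fun s' hs' => ⟨x, hs'⟩
  have hd : Dense (⋂ σ, (frontier (V σ))ᶜ) :=
    dense_iInter_of_isOpen (fun σ => isClosed_frontier.isOpen_compl) fun σ => by
      rw [← interior_eq_empty_iff_dense_compl, ← frontier_compl]
      exact interior_frontier (hV σ).isClosed_compl
  obtain ⟨s, hs, hs'⟩ := hd.exists_between (show (1 : ℝ) < 2 by norm_num)
  have key : ∀ σ, s ∈ closure (V σ) → ∃ y, ∀ i, (i ∈ σ ↔ y ∈ Op s i) ∧ (i ∈ σ ↔ y ∈ Cl s i) := by
    intro σ hc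
    have h := mem_iInter.1 hs σ
    rw [mem_compl_iff, (hV σ).frontier_eq] at h
    obtain ⟨y, hy⟩ : s ∈ V σ := by_contra fun hn => h ⟨hc, hn⟩
    refine ⟨y, fun i => ⟨⟨(hy i).1, fun h => by_contra fun hi => (hy i).2 hi (h1 s i h)⟩,
      ⟨fun hi => h1 s i ((hy i).1 hi), fun h => by_contra fun hi => (hy i).2 hi h⟩⟩⟩
  refine ⟨s, hs', fun x => ?_, fun y => ?_⟩
  · obtain ⟨y, hy⟩ := key {i | x ∈ Cl s i} (by
      refine mem_closure_of_tendsto (f := id) (b := 𝓝[>] s) nhdsWithin_le_nhds ?_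
      have : ∀ᶠ s' in 𝓝[>] s, ∀ i, x ∉ Cl s i → x ∉ Cl s' i := by
        refine eventually_all.2 fun i => ?_
        by_cases hi : x ∈ Cl s i
        · exact Eventually.of_forall fun _ h => absurd hi h
        · filter_upwards [nhdsWithin_le_nhds ((h4 x i).isOpen_compl.mem_nhds hi)] with s' hs'
          exact fun _ => hs'
      filter_upwards [this, self_mem_nhdsWithin] with s' e1 e2
      exact ⟨x, fun i => ⟨fun hi => h2 s s' i e2 (by linarith [hs'.1, mem_Ioi.1 e2]) hi, e1 i⟩⟩)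
    exact ⟨y, fun i => (hy i).1⟩
  · obtain ⟨x, hx⟩ := key {i | y ∈ Op s i} (by
      refine mem_closure_of_tendsto (f := id) (b := 𝓝[<] s) nhdsWithin_le_nhds ?_
      have : ∀ᶠ s' in 𝓝[<] s, ∀ i, y ∈ Op s i → y ∈ Op s' i := by
        refine eventually_all.2 fun i => ?_
        by_cases hi : y ∈ Op s i
        · filter_upwards [nhdsWithin_le_nhds ((h3 y i).mem_nhds hi)] with s' hs'
          exact fun _ => hs'
        · exact Eventually.of_forall fun _ h => absurd h hi
      filter_upwards [this, self_mem_nhdsWithin] with s' e1 e2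
      exact ⟨y, fun i => ⟨e1 i, fun hi h => hi (h2 s' s i e2 (by linarith [hs'.1]) h)⟩⟩)
    exact ⟨x, fun i => (hx i).2.symm⟩

theorem interior_cthickening_of_convex {Z : Set E} (hZ : Convex ℝ Z) {δ : ℝ} (hδ : 0 < δ) :
    interior (cthickening δ Z) = thickening δ Z := by
  rcases Z.eq_empty_or_nonempty with rfl | hne
  · simp
  rw [← closure_thickening hδ, (hZ.thickening δ).interior_closure_eq_interior_of_nonempty_interior,
    isOpen_thickening.interior_eq]
  rw [isOpen_thickening.interior_eq]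
  exact hne.mono (self_subset_thickening hδ Z)

/-- An open set around the meet of finitely many compact sets contains the meet of their small
closed thickenings. -/
theorem eventually_meet {N : Type} {Z : N → Set E} (hZ : ∀ i, IsCompact (Z i)) {l : List N}
    (hl : l ≠ []) {U : Set E} (hU : ∀ x, (∀ a ∈ l, x ∈ Z a) → U ∈ 𝓝 x) :
    ∀ᶠ θ in 𝓝[>] (0 : ℝ), ∀ x, (∀ a ∈ l, x ∈ cthickening θ (Z a)) → x ∈ U := by
  obtain ⟨a₀, ha₀⟩ := List.exists_mem_of_ne_nil l hl
  obtain ⟨θ, hθ⟩ := exists_subset_nhds_of_isCompact (ι := Ioi (0 : ℝ))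
    (V := fun θ => ⋂ a ∈ l, cthickening θ (Z a)) (U := U)
    (fun θ θ' => ⟨⟨min θ θ', mem_Ioi.2 (lt_min (mem_Ioi.1 θ.2) (mem_Ioi.1 θ'.2))⟩,
      iInter₂_mono fun a _ => cthickening_mono (min_le_left _ _) _,
      iInter₂_mono fun a _ => cthickening_mono (min_le_right _ _) _⟩)
    (fun θ => (hZ a₀).cthickening.of_isClosed_subset
      (isClosed_biInter fun _ _ => isClosed_cthickening) (biInter_subset_of_mem ha₀))
    (fun x hx => hU x fun a ha => by
      rw [← (hZ a).isClosed.closure_eq, closure_eq_iInter_cthickening]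
      exact mem_iInter₂.2 fun δ hδ => mem_iInter₂.1 (mem_iInter.1 hx ⟨δ, hδ⟩) a ha)
  filter_upwards [Ioo_mem_nhdsGT θ.2] with θ' h' x hx
  exact hθ (mem_iInter₂.2 fun a ha => cthickening_mono h'.2.le _ (hx a ha))

theorem thicken {N : Type} (F : List (Pat N)) (Q : List N) (X : N → Set E)
    (hX : ∀ i, Convex ℝ (X i) ∧ IsClosed (X i)) (rk : N → ℕ) (hne : ∀ p ∈ F, p.1 ≠ [])
    (hF : ∀ p ∈ F, ∀ x, (∀ a ∈ p.1, x ∈ X a) →
      ∃ b ∈ p.2, x ∈ interior (X b) ∨ (x ∈ X b ∧ ∀ a ∈ p.1, rk a < rk b))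
    (hQ : ∀ r ∈ Q, (X r).Nonempty) :
    ∃ Y : N → Set E, (∀ i, Convex ℝ (Y i) ∧ IsCompact (Y i)) ∧
      SameCode Y (fun i => interior (Y i)) ∧ (∀ p ∈ F, ForbG Y p) ∧ ∀ r ∈ Q, (Y r).Nonempty := by
  classical
  obtain ⟨ρ, hρ0, hρ⟩ : ∃ ρ : ℝ, 0 < ρ ∧ ∀ r ∈ Q, (X r ∩ closedBall 0 ρ).Nonempty := by
    clear hF
    induction Q with
    | nil => exact ⟨1, one_pos, by simp⟩
    | cons r Q ih =>
      obtain ⟨ρ, h0, hρ⟩ := ih fun s hs => hQ s (List.mem_cons_of_mem _ hs)
      obtain ⟨x, hx⟩ := hQ r List.mem_cons_self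
      refine ⟨max ρ ‖x‖, lt_max_of_lt_left h0,
        List.forall_mem_cons.2 ⟨⟨x, hx, by simp⟩, fun s hs => ?_⟩⟩
      exact (hρ s hs).mono (inter_subset_inter_right _
        (closedBall_subset_closedBall (le_max_left _ _)))
  let T : List N := Q ++ F.flatMap fun p => p.1 ++ p.2
  have hT1 : ∀ p ∈ F, ∀ a ∈ p.1, a ∈ T := fun p hp a ha =>
    List.mem_append_right _ (List.mem_flatMap.2 ⟨p, hp, List.mem_append_left _ ha⟩)
  have hT2 : ∀ p ∈ F, ∀ b ∈ p.2, b ∈ T := fun p hp b hb =>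
    List.mem_append_right _ (List.mem_flatMap.2 ⟨p, hp, List.mem_append_right _ hb⟩)
  let Z : N → Set E := fun i => X i ∩ closedBall 0 (ρ * 2)
  have hZ : ∀ i, IsCompact (Z i) := fun i => (isCompact_closedBall _ _).inter_left (hX i).2
  have hZc : ∀ i, Convex ℝ (Z i) := fun i => (hX i).1.inter (convex_closedBall _ _)
  have hθ : ∀ δ : ℝ, ∃ θ : ℝ, 0 < δ → 0 < θ ∧ θ ≤ δ ∧ ∀ p ∈ F, ∀ x,
      (∀ a ∈ p.1, x ∈ cthickening (θ * 2) (Z a)) → ∃ b ∈ p.2, x ∈ interior (X b) ∨
        (x ∈ thickening δ (Z b) ∧ ∀ a ∈ p.1, rk a < rk b) := by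
    intro δ
    by_cases hδ : 0 < δ
    swap
    · exact ⟨0, fun h => absurd h hδ⟩
    have h1 : ∀ᶠ θ in 𝓝[>] (0 : ℝ), ∀ p ∈ {p | p ∈ F}, ∀ x,
        (∀ a ∈ p.1, x ∈ cthickening θ (Z a)) → x ∈ {x | ∃ b ∈ p.2, x ∈ interior (X b) ∨
          (x ∈ thickening δ (Z b) ∧ ∀ a ∈ p.1, rk a < rk b)} := by
      refine (eventually_all_finite F.finite_toSet).2 fun p hp =>
        eventually_meet hZ (hne p hp) fun x hx => ?_
      obtain ⟨a₀, ha₀⟩ := List.exists_mem_of_ne_nil _ (hne p hp)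
      obtain ⟨b, hb, h | h⟩ := hF p hp x fun a ha => (hx a ha).1
      · exact mem_of_superset (isOpen_interior.mem_nhds h) fun y hy => ⟨b, hb, Or.inl hy⟩
      · exact mem_of_superset (isOpen_thickening.mem_nhds
          (self_subset_thickening hδ (Z b) ⟨h.1, (hx a₀ ha₀).2⟩)) fun y hy =>
          ⟨b, hb, Or.inr ⟨hy, h.2⟩⟩
    obtain ⟨θ, e1, e2⟩ := (h1.and (Ioo_mem_nhdsGT hδ)).exists
    refine ⟨θ / 2, fun _ => ⟨by linarith [e2.1], by linarith [e2.1, e2.2], ?_⟩⟩
    rw [div_mul_cancel₀ _ two_ne_zero]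
    exact e1
  choose θ hθ using hθ
  obtain ⟨K, hK⟩ : ∃ K, ∀ i ∈ T, rk i ≤ K := by
    obtain ⟨K, hK⟩ := (T.map rk).finite_toSet.bddAbove
    exact ⟨K, fun i hi => hK (List.mem_map_of_mem hi)⟩
  have u0 : ∀ m, 0 < θ^[m] 1 := by
    intro m
    induction m with
    | zero => exact one_pos
    | succ m ih => rw [iterate_succ_apply']; exact (hθ _ ih).1
  have ua : Antitone fun m => θ^[m] 1 := antitone_nat_of_succ_le fun m => by
    rw [iterate_succ_apply']
    exact (hθ _ (u0 m)).2.1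
  let r : N → ℝ := fun i => θ^[K + 1 - rk i] 1
  have r0 : ∀ i, 0 < r i := fun i => u0 _
  let Cl : ℝ → N → Set E := fun s i => cthickening (r i * s) (Z i) ∩ closedBall 0 (ρ * s)
  let Op : ℝ → N → Set E := fun s i => thickening (r i * s) (Z i) ∩ ball 0 (ρ * s)
  have : Finite {i // i ∈ T} := T.finite_toSet.to_subtype
  obtain ⟨s, hs, hsame⟩ := exists_generic (N := {i // i ∈ T}) (fun s i => Cl s i)
    (fun s i => Op s i)
    (fun s i => inter_subset_inter (thickening_subset_cthickening _ _) ball_subset_closedBall)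
    (fun s s' i h h' => inter_subset_inter
      (cthickening_subset_thickening' (mul_pos (r0 i) h') (mul_lt_mul_of_pos_left h (r0 i)) _)
      (closedBall_subset_ball (mul_lt_mul_of_pos_left h hρ0)))
    (fun x i => by
      simp only [Op, mem_inter_iff, mem_thickening_iff_infEDist_lt, mem_ball]
      exact (isOpen_lt continuous_const (ENNReal.continuous_ofReal.comp
        (continuous_const.mul continuous_id))).inter
        (isOpen_lt continuous_const (continuous_const.mul continuous_id)))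
    (fun x i => by
      simp only [Cl, mem_inter_iff, mem_cthickening_iff, mem_closedBall]
      exact (isClosed_le continuous_const (ENNReal.continuous_ofReal.comp
        (continuous_const.mul continuous_id))).inter
        (isClosed_le continuous_const (continuous_const.mul continuous_id)))
  have hs0 : 0 < s := by linarith [hs.1]
  have hint : ∀ i, interior (Cl s i) = Op s i := fun i => by
    simp only [Cl, Op]
    rw [interior_inter, interior_cthickening_of_convex (hZc i) (mul_pos (r0 i) hs0),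
      interior_closedBall _ (mul_pos hρ0 hs0).ne']
  have hsub : ∀ i x, x ∈ X i → x ∈ closedBall (0 : E) (ρ * s) → x ∈ Cl s i := fun i x h h' =>
    ⟨self_subset_cthickening _ ⟨h, closedBall_subset_closedBall
      (mul_le_mul_of_nonneg_left hs.2.le hρ0.le) h'⟩, h'⟩
  refine ⟨fun i => if i ∈ T then Cl s i else ∅, fun i => ?_, ⟨fun x => ?_, fun y => ?_⟩,
    fun p hp x hx => ?_, fun q hq => ?_⟩
  · by_cases hi : i ∈ T
    · simp only [if_pos hi]
      exact ⟨((hZc i).cthickening _).inter (convex_closedBall _ _),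
        (isCompact_closedBall _ _).inter_left isClosed_cthickening⟩
    · simp only [if_neg hi]
      exact ⟨convex_empty, isCompact_empty⟩
  · obtain ⟨y, hy⟩ := hsame.1 x
    refine ⟨y, fun i => ?_⟩
    by_cases hi : i ∈ T
    · simp only [if_pos hi, hint]
      exact hy ⟨i, hi⟩
    · simp [hi]
  · obtain ⟨x, hx⟩ := hsame.2 y
    refine ⟨x, fun i => ?_⟩
    by_cases hi : i ∈ T
    · simp only [if_pos hi, hint]
      exact hx ⟨i, hi⟩
    · simp [hi]
  · have hx' : ∀ a ∈ p.1, x ∈ Cl s a := fun a ha => by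
      simpa only [if_pos (hT1 p hp a ha)] using hx a ha
    obtain ⟨a₁, ha₁, hmax⟩ := Set.exists_max_image {a | a ∈ p.1} rk p.1.finite_toSet
      (List.exists_mem_of_ne_nil _ (hne p hp))
    have hk := hK a₁ (hT1 p hp a₁ ha₁)
    obtain ⟨b, hb, h⟩ := (hθ _ (u0 (K - rk a₁))).2.2 p hp x fun a ha => by
      refine cthickening_mono ?_ _ (hx' a ha).1
      have e : r a ≤ θ (θ^[K - rk a₁] 1) := by
        rw [← iterate_succ_apply' θ]
        have := hmax a ha
        exact ua (by omega)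
      exact mul_le_mul e hs.2.le hs0.le ((r0 a).le.trans e)
    refine ⟨b, hb, ?_⟩
    simp only [if_pos (hT2 p hp b hb)]
    rcases h with h | ⟨h, h'⟩
    · exact hsub b x (interior_subset h) (hx' a₁ ha₁).2
    · refine ⟨cthickening_mono ?_ _ (thickening_subset_cthickening _ _ h), (hx' a₁ ha₁).2⟩
      have e : θ^[K - rk a₁] 1 ≤ r b := by
        have := h' a₁ ha₁
        exact ua (by omega)
      nlinarith [r0 b, hs.1]
  · obtain ⟨x, h1, h2⟩ := hρ q hq
    refine ⟨x, ?_⟩
    simp only [if_pos (show q ∈ T from List.mem_append_left _ hq)]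
    exact hsub q x h1 (closedBall_subset_closedBall (by nlinarith [hs.1]) h2)

end Pool.Agent.MP_082264_lc.Rb
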