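import Pool.Agent.MP_082264_lc.Rb.Defs
import Pool.Agent.MP_082264_lc.Rb.Thick

/-! The patterns are primitive recursive in the input; soundness and the model give `PatStmt`. -/

set_option autoImplicit false

namespace Pool.Agent.MP_082264_lc.Rb

open Set Function

variable {ι : Type}

def strip : Nm ι → Nm ι
  | .X (.inp _) u => .X (.inp 0) u
  | .Z (.inp _) u => .Z (.inp 0) u
  | n => n

def num : Nm ι → ℕ
  | .X (.inp k) _ => k
  | .Z (.inp k) _ => k
  | _ => 0

def enc (e : Nm ι → ℕ) (n : Nm ι) : ℕ := Nat.pair (e (strip n)) (num n)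

theorem enc_inj {e : Nm ι → ℕ} (he : Injective e) : Injective (enc e) := by
  intro n n' h
  obtain ⟨h1, h2⟩ := Nat.pair_eq_pair.1 h
  replace h1 := he h1
  rcases n with a | ⟨_ | _ | _ | _ | _ | _, u⟩ | ⟨_ | _ | _ | _ | _ | _, u⟩ <;>
    rcases n' with a' | ⟨_ | _ | _ | _ | _ | _, u'⟩ | ⟨_ | _ | _ | _ | _ | _, u'⟩ <;>
    simp_all [strip, num]

theorem primrec_X (e : Nm ι → ℕ) (u : List Hm) : Primrec fun k => enc e (.X (.inp k) u) :=
  (Primrec₂.natPair.comp (Primrec.const (e (.X (.inp 0) u))) Primrec.id).of_eq fun _ => rfl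

theorem primrec_Z (e : Nm ι → ℕ) (u : List Hm) : Primrec fun k => enc e (.Z (.inp k) u) :=
  (Primrec₂.natPair.comp (Primrec.const (e (.Z (.inp 0) u))) Primrec.id).of_eq fun _ => rfl

theorem primrec_step (e : Nm ι → ℕ) :
    Primrec fun k => (stepP (ι := ι) k).map (encP (enc e)) := by
  have h' : Primrec fun k => enc e (.Z (.inp (k + 1)) []) := (primrec_Z e []).comp Primrec.succ
  have pc : ∀ {β : Type} [Primcodable β] {f : ℕ → β} {g : ℕ → List β}, Primrec f → Primrec g →
      Primrec fun a => f a :: g a := fun hf hg => Primrec.list_cons.comp hf hg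
  simp only [stepP, hullP, imgP, gw, List.map, encP]
  repeat' first
    | exact Primrec.const _
    | exact primrec_X e _
    | exact primrec_Z e _
    | exact h'
    | apply pc
    | apply Primrec.pair

theorem forbG_encP {α N : Type} (g : N → ℕ) (X : ℕ → Set α) (p : Pat N) :
    ForbG X (encP g p) ↔ Fb (X ∘ g) p := by
  simp [ForbG, Fb, encP]

theorem patStmt (hs : SoundStmt) (hm : ModelStmt) : PatStmt := by
  intro f hf
  obtain ⟨ι, _, R, o, ⟨S₀, hS₀, hS₀'⟩, h2⟩ := exists_system hf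
  obtain ⟨e, he⟩ := exists_injective_nat (Nm ι)
  refine ⟨fun n => (pats R o n).map (encP (enc e)), (reqs (ι := ι)).map (enc e), ?_, fun n =>
    ⟨fun d X c1 c2 hF hQ => ?_, fun hd => ?_⟩⟩
  · simp only [pats, List.map_append, List.map_flatMap]
    refine Primrec.list_append.comp (Primrec.const _) (Primrec.list_append.comp
      (Primrec.list_flatMap Primrec.list_range ((primrec_step e).comp Primrec.snd).to₂) ?_)
    simp only [lastP, List.map, encP]
    refine Primrec.list_cons.comp (Primrec.pair ?_ (Primrec.const _)) (Primrec.const _)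
    exact Primrec.list_cons.comp (primrec_Z e []) (Primrec.const _)
  · have := hs ι R o n _ (X ∘ enc e) (fun _ => c1 _) (c2.imp (fun h _ => h _) (fun h _ => h _))
      (fun p hp => (forbG_encP _ _ _).1 (hF _ (List.mem_map_of_mem hp)))
      (fun r hr => hQ _ (List.mem_map_of_mem hr)) S₀ hS₀
    simpa using hS₀' _ this
  · obtain ⟨C, ρ, c1, c2, c3⟩ := hm ι R o n fun S hS => h2 S hS _ (by simpa using hd)
    obtain ⟨Y, y1, y2, y3, y4⟩ := thicken (pats R o n) reqs C c1 ρ (fun p hp => (c2 p hp).1)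
      (fun p hp x hx => by
        rcases (c2 p hp).2 with h | h
        · obtain ⟨-, b, hb, hb'⟩ := h x hx
          exact ⟨b, hb, Or.inl hb'⟩
        · obtain ⟨b, hb, hb'⟩ := h.1 x hx
          exact ⟨b, hb, Or.inr ⟨hb', fun a ha => h.2 a ha b hb⟩⟩)
      (fun r hr => (c3 r hr).imp fun _ h => h.1)
    have hi := enc_inj he
    have hext : extend (enc e) Y (fun _ => ∅) ∘ enc e = Y := extend_comp hi _ _
    have hcase : ∀ (Φ : Set E → Prop), Φ ∅ → (∀ a, Φ (Y a)) →
        ∀ i, Φ (extend (enc e) Y (fun _ => ∅) i) := by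
      intro Φ h0 h1 i
      by_cases h : ∃ a, enc e a = i
      · obtain ⟨a, rfl⟩ := h
        rw [hi.extend_apply]
        exact h1 a
      · rw [extend_apply' _ _ _ h]
        exact h0
    refine ⟨extend (enc e) Y (fun _ => ∅),
      hcase (fun s => Convex ℝ s ∧ IsCompact s) ⟨convex_empty, isCompact_empty⟩ y1,
      ⟨fun x => ?_, fun y => ?_⟩, fun p hp => ?_, fun r hr => ?_⟩
    · obtain ⟨y, hy⟩ := y2.1 x
      exact ⟨y, hcase (fun s => x ∈ s ↔ y ∈ interior s) (by simp) hy⟩
    · obtain ⟨x, hx⟩ := y2.2 y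
      exact ⟨x, hcase (fun s => x ∈ s ↔ y ∈ interior s) (by simp) hx⟩
    · obtain ⟨q, hq, rfl⟩ := List.mem_map.1 hp
      rw [forbG_encP, hext]
      exact y3 q hq
    · obtain ⟨a, ha, rfl⟩ := List.mem_map.1 hr
      rw [hi.extend_apply]
      exact y4 a ha

end Pool.Agent.MP_082264_lc.Rb
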