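import Pool.Agent.MP_082264_lc.Rb.Geo

/-! Soundness: a realisation by open or by closed convex sets forces the derivation. -/

set_option autoImplicit false

namespace Pool.Agent.MP_082264_lc.Rb

open Set Function

/-- The diagonal matrix of a word. -/
def sc (μ : Hm → ℝ) : List Hm → Fin 3 → ℝ
  | [], _ => 1
  | h :: u, i => (if h.1 = i then μ h else 1) * sc μ u i

theorem sc_append (μ : Hm → ℝ) (u u' : List Hm) (i : Fin 3) :
    sc μ (u ++ u') i = sc μ u i * sc μ u' i := by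
  induction u with
  | nil => simp [sc]
  | cons h u ih => simp [sc, ih, mul_assoc]

theorem one_le_sc {μ : Hm → ℝ} (hμ : ∀ h, 1 < μ h) (u : List Hm) (i : Fin 3) : 1 ≤ sc μ u i := by
  induction u with
  | nil => simp [sc]
  | cons h u ih =>
    have := hμ h
    simp only [sc]
    split_ifs <;> nlinarith

theorem sc_pos {μ : Hm → ℝ} (hμ : ∀ h, 1 < μ h) (u : List Hm) (i : Fin 3) : 0 < sc μ u i :=
  one_pos.trans_le (one_le_sc hμ u i)

theorem sc_flat (μ : Hm → ℝ) (L : List Co) (i : Fin 3) :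
    sc μ (L.flatMap fun d => gw (some d)) i = (L.map fun d => sc μ (gw (some d)) i).prod := by
  induction L with
  | nil => simp [sc]
  | cons d L ih => simp [List.flatMap_cons, sc_append, ih]

theorem sc_bw (μ : Hm → ℝ) (c : Co) (i : Fin 3) :
    sc μ (bw c) i * sc μ (gw (some c)) i = sc μ tw i := by
  rw [bw, tw, sc_append, sc_append, sc_flat, sc_flat,
    ← List.prod_map_erase (fun d => sc μ (gw (some d)) i) (List.mem_finRange c)]
  ring

theorem sc_gw_zero (μ : Hm → ℝ) (c : Option Co) : sc μ (gw c) 0 = 1 := by simp [gw, sc]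

theorem sc_tw_zero (μ : Hm → ℝ) : sc μ tw 0 = 1 := by
  rw [tw, sc_append, sc_flat]
  simp [sc_gw_zero]

/-- The weights of the grid point with counters `v` and clock `t`. -/
noncomputable def pw (μ : Hm → ℝ) (w : Fin 3 → ℝ) (v : Gr) (t : ℕ) (i : Fin 3) : ℝ :=
  (∏ c, sc μ (gw (some c)) i ^ v c) * sc μ tw i ^ t * w i

theorem prod_inc (f : Co → ℝ) (c : Co) (v : Gr) :
    ∏ d, f d ^ inc c v d = f c * ∏ d, f d ^ v d := by
  rw [← Finset.mul_prod_erase Finset.univ _ (Finset.mem_univ c),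
    ← Finset.mul_prod_erase Finset.univ (fun d => f d ^ v d) (Finset.mem_univ c)]
  have : ∏ d ∈ Finset.univ.erase c, f d ^ inc c v d = ∏ d ∈ Finset.univ.erase c, f d ^ v d :=
    Finset.prod_congr rfl fun d hd => by simp [inc, update_of_ne (Finset.ne_of_mem_erase hd)]
  rw [this]
  simp only [inc, update_self]
  ring

theorem pw_inc (μ : Hm → ℝ) (w : Fin 3 → ℝ) (c : Co) (v : Gr) (t : ℕ) :
    pw μ w (inc c v) t = fun i => sc μ (gw (some c)) i * pw μ w v t i := by
  funext i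
  simp only [pw, prod_inc]
  ring

theorem pw_succ (μ : Hm → ℝ) (w : Fin 3 → ℝ) (v : Gr) (t : ℕ) :
    pw μ w v (t + 1) = fun i => sc μ tw i * pw μ w v t i := by
  funext i
  simp only [pw]
  ring

theorem pw_up (μ : Hm → ℝ) (w : Fin 3 → ℝ) (c : Co) (v : Gr) (t : ℕ) :
    pw μ w (inc c v) (t + 1) = fun i => sc μ (gw (some c) ++ tw) i * pw μ w v t i := by
  funext i
  simp only [pw_inc, pw_succ, sc_append]
  ring

theorem pw_down (μ : Hm → ℝ) (w : Fin 3 → ℝ) (c : Co) (v : Gr) (t : ℕ) :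
    pw μ w v (t + 1) = fun i => sc μ (bw c) i * pw μ w (inc c v) t i := by
  funext i
  simp only [pw_inc, pw_succ, ← sc_bw μ c]
  ring

theorem pw_zero (μ : Hm → ℝ) (w : Fin 3 → ℝ) : pw μ w (fun _ => 0) 0 = w := by
  funext i
  simp [pw]

theorem pw_pos {μ : Hm → ℝ} (hμ : ∀ h, 1 < μ h) {w : Fin 3 → ℝ} (hw : ∀ i, 0 < w i) (v : Gr)
    (t : ℕ) (i : Fin 3) : 0 < pw μ w v t i :=
  mul_pos (mul_pos (Finset.prod_pos fun _ _ => pow_pos (sc_pos hμ _ _) _)
    (pow_pos (sc_pos hμ _ _) _)) (hw i)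

theorem exists_inc {v : Gr} {c : Co} (h : v c ≠ 0) : ∃ v', v = inc c v' :=
  ⟨update v c (v c - 1), by simp [inc, Nat.sub_add_cancel (Nat.pos_of_ne_zero h)]⟩

theorem sum_inc (c : Co) (v : Gr) : ∑ d, inc c v d = ∑ d, v d + 1 := by
  rw [inc, Finset.sum_update_of_mem (Finset.mem_univ c),
    ← Finset.add_sum_erase _ _ (Finset.mem_univ c), Finset.sdiff_singleton_eq_erase]
  omega

/-- The grid points that belong to a test set. -/
def InT : Option (Option Co) → Gr → ℕ → Prop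
  | none, _, _ => True
  | some none, _, t => t = 0
  | some (some c), v, _ => v c = 0

variable {ι F : Type} [NormedAddCommGroup F] [NormedSpace ℝ F] {X : Nm ι → Set F}

theorem cov_sound (hc : ∀ a, Convex ℝ (X a)) (ho : (∀ a, IsOpen (X a)) ∨ ∀ a, IsClosed (X a))
    {c : Cv} {P Q R : Nm ι} (h : ∀ p ∈ covP c P Q R, Fb X p) {p q : F} (hp : p ∈ X P)
    (hq : q ∈ X Q) : ∃ γ : ℝ, 0 < γ ∧ γ < 1 ∧ p + γ • (q - p) ∈ X R := by
  simp [covP, Fb] at h
  obtain ⟨h1, h2, h3, h4, h5, h6, h7, h8⟩ := h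
  obtain ⟨γ, g0, g1, e1, e2⟩ := cover (hc (.fx (.L c 0)))
    (ho.imp (fun h => ⟨h _, h _⟩) (fun h => ⟨h _, h _⟩)) (h1 p hp) (h2 q hq)
    (fun x hx => h3 x hx) (h4 p hp) (h5 q hq)
  have hR := h6 _ e1 e2
  refine ⟨γ, lt_of_le_of_ne g0 ?_, lt_of_le_of_ne g1 ?_, hR⟩
  · rintro rfl
    exact h7 p hp (by simpa using hR)
  · rintro rfl
    exact h8 q hq (by simpa using hR)

/-- The chosen points and ratios. -/
structure Frame (X : Nm ι → Set F) (V₀ : Fin 3 → F) (μ : Hm → ℝ) : Prop where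
  lt : ∀ h, 1 < μ h
  vert : ∀ i, V₀ i ∈ X (V i)
  base : ∀ w, Pos w → bq V₀ w ∈ X D
  img : ∀ s u, (∀ p ∈ imgP s u, Fb X p) → ∀ w, Pos w → bq V₀ w ∈ X (K s) →
    bq V₀ (fun i => sc μ u i * w i) ∈ X (.Z s u)

theorem exists_frame (hc : ∀ a, Convex ℝ (X a))
    (ho : (∀ a, IsOpen (X a)) ∨ ∀ a, IsClosed (X a)) (h : ∀ p ∈ frameP, Fb X p)
    (hr : ∀ r ∈ reqs, (X r).Nonempty) : ∃ V₀ μ, Frame X V₀ μ := by
  have hA : ∀ i, (X (.fx (.A i))).Nonempty := fun i => hr _ (by fin_cases i <;> simp [reqs])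
  have hA' : ∀ i, (X (.fx (.A' i))).Nonempty := fun i => hr _ (by fin_cases i <;> simp [reqs])
  choose a ha using hA
  choose a' ha' using hA'
  simp only [frameP, List.forall_mem_append, List.forall_mem_flatMap, mem_all, true_imp_iff,
    List.forall_mem_cons] at h
  obtain ⟨⟨⟨⟨h1, h2⟩, -⟩, -⟩, -⟩ := h
  choose γ' g0 g1 hV using fun i => cov_sound hc ho (h1 i).2 (ha i) (ha' i)
  set V₀ : Fin 3 → F := fun i => a i + γ' i • (a' i - a i) with hV₀
  have hD : ∀ w, Pos w → bq V₀ w ∈ X D := fun w hw =>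
    bq_mem (hc _) (fun i => by simpa [Fb] using (h1 i).1 (V₀ i) (by simpa using hV i)) hw
  have hh : ∀ η : Hm, ∃ μ : ℝ, 1 < μ ∧ ∀ (A B : Set F), Convex ℝ A → Convex ℝ B → a η.1 ∈ A →
      a' η.1 ∈ B → (∀ x ∈ A, x ∈ X (.fx (.D' η)) → x ∈ B) → ∀ w, Pos w → bq V₀ w ∈ A →
      bq V₀ (fun j => (if η.1 = j then μ else 1) * w j) ∈ B := by
    intro η
    obtain ⟨b1, b2, b3, b4⟩ := h2 η
    obtain ⟨γ, k0, k1, hW⟩ := cov_sound hc ho b4 (ha η.1) (hV η.1)
    obtain ⟨μ, hμ, H⟩ := homology (V := V₀) η.1 k0 k1 (g0 η.1) (g1 η.1) rfl rfl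
    refine ⟨μ, hμ, fun A B cA cB xA xB hs => H A B _ cA cB (hc _) xA xB ?_ ?_ hs⟩
    · simpa [Fb] using b1 (a η.1 + γ • (V₀ η.1 - a η.1)) (List.forall_mem_singleton.2 hW)
    · intro j hj
      have : j = η.1 + 1 ∨ j = η.1 + 2 := by
        revert hj
        generalize η.1 = i
        revert i j
        decide
      rcases this with rfl | rfl
      · simpa [Fb] using b2 (V₀ _) (by simpa using hV _)
      · simpa [Fb] using b3 (V₀ _) (by simpa using hV _)
  choose μ hμ H using hh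
  refine ⟨V₀, μ, hμ, hV, hD, fun s u => ?_⟩
  induction u with
  | nil => intro _ w _ hw; simpa [sc] using hw
  | cons η u ih =>
    intro hp w hw h0
    simp only [imgP, List.forall_mem_cons] at hp
    obtain ⟨p1, p2, p3, p4, p5⟩ := hp
    simp [Fb] at p1 p2 p3 p4
    have hw' := hw.mul (sc_pos hμ u)
    have := H η _ _ (hc _) (hc _) (p2 _ (ha _)) (p4 _ (ha' _)) p3 _ hw'
      (p1 _ (ih p5 w hw h0) (hD _ hw'))
    simpa only [sc, mul_assoc] using this

variable {V₀ : Fin 3 → F} {μ : Hm → ℝ}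

theorem Frame.hull (f : Frame X V₀ μ) {s : Nd ι} {u : List Hm} {d : Nm ι}
    (h : ∀ p ∈ hullP s u d, Fb X p) {w : Fin 3 → ℝ} (hw : Pos w) (h0 : bq V₀ w ∈ X (K s)) :
    bq V₀ (fun i => sc μ u i * w i) ∈ X d := by
  simp only [hullP, List.forall_mem_cons] at h
  obtain ⟨p1, p2⟩ := h
  simp [Fb] at p1
  exact p1 _ (f.img s u p2 w hw h0) (f.base _ (hw.mul (sc_pos f.lt u)))

theorem Frame.chk (hc : ∀ a, Convex ℝ (X a)) (f : Frame X V₀ μ) {j : Fin 4} {e : Bool}
    {i : Fin 3} {u : List Hm} (h : ∀ p ∈ chkP (ι := ι) j e i u, Fb X p) {w : Fin 3 → ℝ}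
    (hw : Pos w) (h0 : bq V₀ w ∈ X (K (.m e))) (l : Fin 3)
    (hz : ∀ k, k ≠ i → k ≠ l → w k = 0) : sc μ u i < sc μ u l := by
  simp only [chkP, List.forall_mem_cons] at h
  obtain ⟨p1, p2, p3, p4⟩ := h
  simp [Fb] at p1 p2 p3
  by_contra hn
  have hl := sc_pos f.lt u l
  refine p3 _ (f.img _ u p4 w hw h0) (f.base _ (hw.mul (sc_pos f.lt u))) ?_
  have h1 : bq V₀ (fun k => sc μ u l * w k) ∈ X (.fx (.H j)) := by
    rw [bq_smul _ _ hl.ne']
    exact p1 _ h0
  have h2 := bq_add_vertex (hc _) (hw.mul fun _ => hl) h1 i (p2 _ (f.vert i))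
    (c := (sc μ u i - sc μ u l) * w i) (mul_nonneg (by linarith) (hw.1 i))
  convert h2 using 2
  funext k
  by_cases hk : k = i
  · subst hk; simp; ring
  by_cases hk' : k = l
  · subst hk'; simp [hk]
  · simp [hk, hz k hk hk']

theorem Frame.tests (f : Frame X V₀ μ) (h : ∀ p ∈ testP, Fb X p) {w : Fin 3 → ℝ}
    (hw : ∀ i, 0 < w i) (h0 : bq V₀ w ∈ X (K (.inp 0))) (j : Option (Option Co)) (t : ℕ) (v : Gr)
    (hj : InT j v t) : bq V₀ (pw μ w v t) ∈ X (K (.ts j)) := by
  simp only [testP, List.forall_mem_flatMap, mem_all, true_imp_iff, List.forall_mem_cons,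
    List.mem_filter, true_and, decide_eq_true_eq] at h
  obtain ⟨p1, p2⟩ := h j
  simp [Fb] at p1
  have key : ∀ n, ∀ v : Gr, ∑ c, v c = n → InT j v 0 → bq V₀ (pw μ w v 0) ∈ X (K (.ts j)) := by
    intro n
    induction n with
    | zero =>
      intro v hv _
      obtain rfl : v = fun _ => 0 := funext fun c =>
        (Finset.sum_eq_zero_iff.1 hv) c (Finset.mem_univ c)
      rw [pw_zero]
      exact p1 _ h0
    | succ n ih =>
      intro v hv hj
      obtain ⟨c, -, hc'⟩ := Finset.exists_ne_zero_of_sum_ne_zero (s := Finset.univ) (f := v)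
        (by omega)
      obtain ⟨v', rfl⟩ := exists_inc hc'
      have hne : j ≠ some (some c) := by
        rintro rfl
        exact hc' hj
      rw [pw_inc]
      refine f.hull (p2 (some c) hne) (pos_of_pos (pw_pos f.lt hw _ _))
        (ih v' (by rw [sum_inc] at hv; omega) ?_)
      rcases j with _ | _ | d
      · trivial
      · rfl
      · have hd : d ≠ c := fun e => hne (by rw [e])
        simpa [InT, inc, update_of_ne hd] using hj
  induction t with
  | zero => exact key _ v rfl hj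
  | succ t ih =>
    have hne : j ≠ some none := by
      rintro rfl
      simp [InT] at hj
    rw [pw_succ]
    refine f.hull (p2 none hne) (pos_of_pos (pw_pos f.lt hw _ _)) (ih ?_)
    rcases j with _ | _ | d
    · trivial
    · exact absurd rfl hne
    · exact hj

theorem Frame.horn (f : Frame X V₀ μ) {R : List (Rule ι)} {o : ι} (h : ∀ p ∈ hornP R o, Fb X p)
    {w : Fin 3 → ℝ} (hw : ∀ i, 0 < w i)
    (hT : ∀ j t v, InT j v t → bq V₀ (pw μ w v t) ∈ X (K (.ts j))) {S : ι → Set Gr}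
    (hS : Model R S) (t : ℕ) :
    ∀ k ∈ preds R o, ∀ v, bq V₀ (pw μ w v t) ∉ X (K (.pr k)) → v ∈ S k := by
  simp only [hornP, List.forall_mem_append, List.forall_mem_map, List.forall_mem_flatMap] at h
  obtain ⟨h1, h2⟩ := h
  have hp := fun v t => pos_of_pos (pw_pos f.lt hw v t)
  have hid : ∀ r ∈ R, ∀ j v t, (Nd.ts j, []) ∈ body r → bq V₀ (pw μ w v t) ∉ X (K (.ru r)) →
      ¬ InT j v t := fun r hr j v t hb hn hj =>
    hn (by simpa [sc] using f.hull (h2 r hr _ hb) (hp v t) (hT j t v hj))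
  induction t using Nat.strong_induction_on with
  | _ t ih =>
  intro k hk v hv
  obtain ⟨r, hr, rfl, hn⟩ : ∃ r ∈ R, head r = k ∧ bq V₀ (pw μ w v t) ∉ X (K (.ru r)) := by
    by_contra hcon
    push Not at hcon
    have := h1 k hk (bq V₀ (pw μ w v t)) (by
      simp only [List.forall_mem_cons, List.forall_mem_map, List.mem_filter, decide_eq_true_eq]
      exact ⟨f.base _ (hp v t), hT none t v trivial, fun r hr => hcon r hr.1 hr.2⟩)
    exact hv (by simpa using this)
  have hpre : ∀ i ∈ prems r, i ∈ preds R o := fun i hi =>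
    List.mem_cons_of_mem _ (List.mem_flatMap.2 ⟨r, hr, hi⟩)
  have hsat := hS r hr
  cases r with
  | base j =>
    obtain rfl : v = fun _ => 0 := by
      funext c
      by_contra hc
      obtain ⟨v', rfl⟩ := exists_inc hc
      refine hn ?_
      rw [pw_inc]
      exact f.hull (h2 _ hr (.ts none, gw (some c)) (by simp [body])) (hp _ _)
        (hT none t v' trivial)
    exact hsat
  | up c i j =>
    obtain ⟨v', rfl⟩ := exists_inc (hid _ hr (some (some c)) v t (by simp [body]) hn)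
    obtain ⟨t', rfl⟩ := Nat.exists_eq_succ_of_ne_zero (hid _ hr (some none) _ t (by simp [body]) hn)
    refine hsat v' (ih t' (Nat.lt_succ_self _) i (hpre i (by simp [prems])) v' fun h0 => hn ?_)
    rw [Nat.succ_eq_add_one, pw_up]
    exact f.hull (h2 _ hr (.pr i, gw (some c) ++ tw) (by simp [body])) (hp _ _) h0
  | down c i j =>
    obtain ⟨t', rfl⟩ := Nat.exists_eq_succ_of_ne_zero (hid _ hr (some none) _ t (by simp [body]) hn)
    refine hsat v (ih t' (Nat.lt_succ_self _) i (hpre i (by simp [prems])) _ fun h0 => hn ?_)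
    rw [Nat.succ_eq_add_one, pw_down μ w c]
    exact f.hull (h2 _ hr (.pr i, bw c) (by simp [body])) (hp _ _) h0
  | inter i l j =>
    obtain ⟨t', rfl⟩ := Nat.exists_eq_succ_of_ne_zero (hid _ hr (some none) _ t (by simp [body]) hn)
    refine hsat ⟨ih t' (Nat.lt_succ_self _) i (hpre i (by simp [prems])) _ fun h0 => hn ?_,
      ih t' (Nat.lt_succ_self _) l (hpre l (by simp [prems])) _ fun h0 => hn ?_⟩
    · rw [Nat.succ_eq_add_one, pw_succ]
      exact f.hull (h2 _ hr (.pr i, tw) (by simp [body])) (hp _ _) h0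
    · rw [Nat.succ_eq_add_one, pw_succ]
      exact f.hull (h2 _ hr (.pr l, tw) (by simp [body])) (hp _ _) h0

theorem Frame.start (hc : ∀ a, Convex ℝ (X a)) (ho : (∀ a, IsOpen (X a)) ∨ ∀ a, IsClosed (X a))
    (f : Frame X V₀ μ) {o : ι} (h : ∀ p ∈ startP o, Fb X p)
    (c0 : sc μ (hp ++ tw) 0 < sc μ (hp ++ tw) 1) (c1 : sc μ (hn ++ tw) 1 < sc μ (hn ++ tw) 0)
    (c2 : sc μ (hp ++ tw) 2 < sc μ (hp ++ tw) 1) (c3 : sc μ tw 1 < sc μ tw 2)
    {w : Fin 3 → ℝ} (hw : ∀ i, 0 < w i) (v : Gr) (h0 : bq V₀ (pw μ w v 0) ∉ X (K .st)) :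
    ∃ t, bq V₀ (pw μ w v t) ∉ X (K (.pr o)) := by
  by_contra hcon
  push Not at hcon
  simp only [startP, List.forall_mem_append, List.forall_mem_cons] at h
  obtain ⟨⟨h1, h2⟩, h3, h4, h5, h6, -⟩ := h
  simp [Fb] at h3 h4 h5 h6
  have hpp := pw_pos f.lt hw v
  have t0 := sc_tw_zero μ
  have t1 := sc_pos f.lt tw 1
  have t2 := sc_pos f.lt tw 2
  have m0 := f.lt (0, none)
  have m1 := f.lt (1, none)
  have m2 := f.lt (0, some none)
  simp [hp, hn, sc, t0] at c0 c1 c2
  have hst : ∀ t, bq V₀ (pw μ w v t) ∉ X (K .st) := by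
    intro t
    induction t with
    | zero => exact h0
    | succ t ih =>
      intro h1'
      refine ih (h4 _ ?_ (hcon t) (f.base _ (pos_of_pos (hpp t))))
      have y1 := f.hull h1 (pos_of_pos (hpp _)) h1'
      have y2 := f.hull h2 (pos_of_pos (hpp _)) h1'
      set α := μ (0, none)
      set β := μ (1, none)
      set α' := μ (0, some none)
      set T1 := sc μ tw 1
      set T2 := sc μ tw 2
      have hb : 0 < (β * T1 - α) / (α * (α' - 1) * (β * T1)) :=
        div_pos (by linarith) (by have : 0 < α' - 1 := by linarith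
                                  positivity)
      have ha : 0 < (α' * α - β * T1) / (α * (α' - 1) * (β * T1)) :=
        div_pos (by linarith) (by have : 0 < α' - 1 := by linarith
                                  positivity)
      rw [← bq_smul _ _ ha.ne'] at y1
      rw [← bq_smul _ _ hb.ne'] at y2
      have q1 := ((pos_of_pos (hpp (t + 1))).mul (sc_pos f.lt hp)).mul fun _ => ha
      have q2 := ((pos_of_pos (hpp (t + 1))).mul (sc_pos f.lt hn)).mul fun _ => hb
      have y3 := bq_add (hc _) q1 q2 y1 y2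
      have y4 := bq_add_vertex (hc _) ⟨fun i => add_nonneg (q1.1 i) (q2.1 i), by
        have := q1.2; have := q2.2; linarith⟩ y3 2 (h3 _ (f.vert 2))
        (c := (1 - T2 / (β * T1)) * pw μ w v t 2)
        (mul_nonneg (by rw [sub_nonneg, div_le_one (by positivity)]; exact c2.le) (hpp t 2).le)
      convert y4 using 2
      have d1 : α' - 1 ≠ 0 := by linarith
      have d2 : α ≠ 0 := by linarith
      have d3 : β ≠ 0 := by linarith
      funext i
      fin_cases i <;> simp [pw_succ, hp, hn, sc, t0] <;> field_simp <;> ring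
  have hW : ∀ t, bq V₀ (pw μ w v t) ∈ X (.fx .Wc) := fun t =>
    (h5 _ (f.base _ (pos_of_pos (hpp t)))).resolve_left (hst t)
  have u2 : 1 < sc μ tw 2 := (one_le_sc f.lt tw 1).trans_lt c3
  have hlim := tendsto_bq V₀ (pw μ w v 0) (hpp 0 2) (a := (sc μ tw 2)⁻¹)
    (b := sc μ tw 1 / sc μ tw 2) (by positivity) (inv_lt_one_of_one_lt₀ u2) (by positivity)
    ((div_lt_one t2).2 c3)
  have heq : ∀ t : ℕ, bq V₀ ![pw μ w v 0 0 * (sc μ tw 2)⁻¹ ^ t,
      pw μ w v 0 1 * (sc μ tw 1 / sc μ tw 2) ^ t, pw μ w v 0 2] = bq V₀ (pw μ w v t) := by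
    intro t
    rw [← bq_smul _ _ (pow_pos t2 t).ne']
    congr 1
    funext i
    fin_cases i <;> simp [pw, t0, div_pow] <;> field_simp
  simp only [heq] at hlim
  rcases ho with ho | ho
  · obtain ⟨t, ht⟩ := (hlim.eventually ((ho _).mem_nhds (f.vert 2))).exists
    exact h6 _ (hW t) ht
  · exact h6 _ ((ho _).mem_of_tendsto hlim (Filter.Eventually.of_forall hW)) (f.vert 2)

theorem sound : SoundStmt := by
  intro ι R o n F _ _ X hc ho h hr S hS
  simp only [pats, fixedP, List.forall_mem_append, List.forall_mem_flatMap, List.mem_range,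
    List.forall_mem_singleton] at h
  obtain ⟨⟨⟨⟨⟨hf, hk⟩, ht⟩, hh⟩, hs⟩, hi, hl⟩ := h
  obtain ⟨V₀, μ, f⟩ := exists_frame hc ho hf hr
  simp only [frameP, List.forall_mem_append, List.forall_mem_cons] at hf
  obtain ⟨⟨⟨-, k1⟩, k2⟩, l1, l2, l3, l4, l5, -⟩ := hf
  simp [Fb] at l1 l2 l3 l4 l5
  obtain ⟨p, p0, p1, hp'⟩ := cov_sound hc ho k1 (f.vert 0) (f.vert 1)
  obtain ⟨q, q0, q1, hq'⟩ := cov_sound hc ho k2 (f.vert 1) (f.vert 2)
  have p2 : 0 < 1 - p := by linarith
  have q2 : 0 < 1 - q := by linarith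
  have wp : Pos ![1 - p, p, 0] := ⟨fun i => by fin_cases i <;> simp [p0.le, p1.le], by simp⟩
  have wq : Pos ![0, 1 - q, q] := ⟨fun i => by fin_cases i <;> simp [q0.le, q1.le], by simp⟩
  have mp : bq V₀ ![1 - p, p, 0] ∈ X (K (.m false)) := by
    convert hp' using 1
    simp [bq]
    module
  have mq : bq V₀ ![0, 1 - q, q] ∈ X (K (.m true)) := by
    convert hq' using 1
    simp [bq]
    module
  simp only [checkP, List.forall_mem_append] at hk
  obtain ⟨⟨⟨c0, c1⟩, c2⟩, c3⟩ := hk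
  have d0 := f.chk hc c0 wp mp 1 (by intro k; fin_cases k <;> simp)
  have d1 := f.chk hc c1 wp mp 0 (by intro k; fin_cases k <;> simp)
  have d2 := f.chk hc c2 wq mq 1 (by intro k; fin_cases k <;> simp)
  have d3 := f.chk hc c3 wq mq 2 (by intro k; fin_cases k <;> simp)
  set w : Fin 3 → ℝ := ![(1 - q) * (1 - p), (1 - q) * p, p * q] with hwd
  have hw : ∀ i, 0 < w i := fun i => by fin_cases i <;> simp [hwd] <;> positivity
  have hb : bq V₀ w ∈ X (K (.inp 0)) := by
    refine l5 _ ?_ ?_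
    · have a1 := l2 _ mp
      rw [← bq_smul _ _ q2.ne'] at a1
      convert bq_add_vertex (hc _) (wp.mul fun _ => q2) a1 2 (l1 _ (f.vert 2))
        (c := p * q) (by positivity) using 2
      funext i
      fin_cases i <;> simp [hwd]
    · have a1 := l4 _ mq
      rw [← bq_smul _ _ p0.ne'] at a1
      convert bq_add_vertex (hc _) (wq.mul fun _ => p0) a1 0 (l3 _ (f.vert 0))
        (c := (1 - q) * (1 - p)) (by positivity) using 2
      funext i
      fin_cases i <;> simp [hwd, mul_comm]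
  have hin : ∀ j, j ≤ n → bq V₀ (pw μ w (update (fun _ => 0) 0 j) 0) ∈ X (K (.inp j)) := by
    intro j
    induction j with
    | zero => intro _; simpa [pw_zero] using hb
    | succ j ih =>
      intro hj
      have : update (fun _ => 0) 0 (j + 1) = inc 0 (update (fun _ => 0) 0 j) := by simp [inc]
      rw [this, pw_inc]
      exact f.hull (hi j hj) (pos_of_pos (pw_pos f.lt hw _ _)) (ih (by omega))
  simp [lastP, Fb] at hl
  obtain ⟨t, ht'⟩ := f.start hc ho hs d0 d1 d2 d3 hw _ (hl _ (hin n le_rfl))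
  exact f.horn hh hw (f.tests ht hw hb) hS t o (by simp [preds]) _ ht'

end Pool.Agent.MP_082264_lc.Rb
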