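import Mathlib.Analysis.Normed.Module.Convex
import Mathlib.Analysis.Normed.Module.Ball.Pointwise
import Mathlib.Topology.Baire.CompleteMetrizable
import Mathlib.Topology.Baire.Lemmas
import Pool.Agent.MP_082264_lc.Rb.Defs

/-! The thickening lemma: stable patterns survive a thickening with radii chosen by rank, and
for a generic scale the thickened sets and their interiors have the same code. -/

set_option autoImplicit false

namespace Pool.Agent.MP_082264_lc.Rb.Ts

open Set Function Metric Filter Topology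

theorem meet_cthickening {N : Type} {C : N → Set E} (hC : ∀ a, IsCompact (C a)) {l : List N}
    (hl : l ≠ []) {O : Set E} (hO : IsOpen O) (h : ∀ x, (∀ a ∈ l, x ∈ C a) → x ∈ O) :
    ∃ θ : ℝ, 0 < θ ∧ ∀ x, (∀ a ∈ l, x ∈ cthickening θ (C a)) → x ∈ O := by
  by_contra hn
  push Not at hn
  obtain ⟨a₀, ha₀⟩ := List.exists_mem_of_ne_nil l hl
  let t : ℕ → Set E := fun n => (⋂ a ∈ l, cthickening (1 / ((n : ℝ) + 1)) (C a)) ∩ Oᶜ
  have hcl : ∀ n, IsClosed (t n) := fun n =>
    (isClosed_biInter fun _ _ => isClosed_cthickening).inter hO.isClosed_compl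
  obtain ⟨x, hx⟩ := IsCompact.nonempty_iInter_of_sequence_nonempty_isCompact_isClosed t
    (fun n => inter_subset_inter_left _ (iInter₂_mono fun a _ => cthickening_mono
      (one_div_le_one_div_of_le (by positivity) (by push_cast; linarith)) _))
    (fun n => by
      obtain ⟨x, hx, hx'⟩ := hn (1 / ((n : ℝ) + 1)) (by positivity)
      exact ⟨x, mem_iInter₂.2 hx, hx'⟩)
    (((hC a₀).cthickening (r := 1 / (((0 : ℕ) : ℝ) + 1))).of_isClosed_subset (hcl 0)
      (inter_subset_left.trans (biInter_subset_of_mem ha₀))) hcl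
  rw [mem_iInter] at hx
  refine (hx 0).2 (h x fun a ha => ?_)
  rw [← (hC a).isClosed.closure_eq, closure_eq_iInter_cthickening, mem_iInter₂]
  intro δ hδ
  obtain ⟨n, hn⟩ := exists_nat_one_div_lt hδ
  exact cthickening_mono hn.le _ (mem_iInter₂.1 (hx n).1 a ha)

theorem interior_cthick {C : Set E} (hC : Convex ℝ C) {δ : ℝ} (hδ : 0 < δ) :
    interior (cthickening δ C) = thickening δ C := by
  rcases C.eq_empty_or_nonempty with rfl | h
  · simp
  · rw [← closure_thickening hδ, (hC.thickening δ).interior_closure_eq_interior_of_nonempty_interior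
      (by rw [isOpen_thickening.interior_eq]; exact h.mono (self_subset_thickening hδ _)),
      isOpen_thickening.interior_eq]

theorem generic_scale {N F : Type} (T : List N) (e : N → F → ENNReal) (r : N → ℝ)
    (hr : ∀ a, 0 < r a) :
    ∃ t : ℝ, 1 < t ∧ t < 2 ∧
      (∀ x, ∃ y, ∀ a ∈ T, e a x ≤ ENNReal.ofReal (r a * t) ↔ e a y < ENNReal.ofReal (r a * t)) ∧
      ∀ y, ∃ x, ∀ a ∈ T, e a x ≤ ENNReal.ofReal (r a * t) ↔ e a y < ENNReal.ofReal (r a * t) := by
  have hg : ∀ a, Continuous fun t : ℝ => ENNReal.ofReal (r a * t) := fun a =>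
    ENNReal.continuous_ofReal.comp (by fun_prop)
  have hm : ∀ a {s t : ℝ}, 0 < t → s < t → ENNReal.ofReal (r a * s) < ENNReal.ofReal (r a * t) :=
    fun a s t ht h => (ENNReal.ofReal_lt_ofReal_iff (mul_pos (hr a) ht)).2
      (mul_lt_mul_of_pos_left h (hr a))
  have hT : {a | a ∈ T}.Finite := T.finite_toSet
  let U : Set N → Set ℝ := fun σ => {t | ∃ x, ∀ a ∈ T,
    (a ∈ σ → e a x < ENNReal.ofReal (r a * t)) ∧ (a ∉ σ → ENNReal.ofReal (r a * t) < e a x)}
  have hU : ∀ σ, IsOpen (U σ) := fun σ => by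
    simp only [U, ofPred_exists, ofPred_forall]
    refine isOpen_iUnion fun x => hT.isOpen_biInter fun a _ => ?_
    by_cases h : a ∈ σ
    · simpa [h] using isOpen_lt continuous_const (hg a)
    · simpa [h] using isOpen_lt (hg a) continuous_const
  have hd : Dense (⋂ σ ∈ {σ | σ ⊆ {a | a ∈ T}}, U σ ∪ (closure (U σ))ᶜ) :=
    dense_biInter_of_isOpen (fun σ _ => (hU σ).union isClosed_closure.isOpen_compl)
      hT.finite_subsets.countable fun σ _ t => by
        by_cases h : t ∈ closure (U σ)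
        · exact closure_mono subset_union_left h
        · exact subset_closure (Or.inr h)
  obtain ⟨t, ht, t1, t2⟩ := hd.exists_mem_open isOpen_Ioo (nonempty_Ioo.2 one_lt_two)
  have t0 : 0 < t := by linarith
  have key : ∀ σ, σ ⊆ {a | a ∈ T} → t ∈ closure (U σ) → ∃ x, ∀ a ∈ T,
      (e a x < ENNReal.ofReal (r a * t) ↔ a ∈ σ) ∧ (e a x ≤ ENNReal.ofReal (r a * t) ↔ a ∈ σ) := by
    intro σ hσ h
    obtain ⟨x, hx⟩ := (mem_iInter₂.1 ht σ hσ).resolve_right fun h' => h' h
    refine ⟨x, fun a ha => ?_⟩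
    by_cases h : a ∈ σ
    · simp [h, (hx a ha).1 h, ((hx a ha).1 h).le]
    · simp [h, (hx a ha).2 h, ((hx a ha).2 h).le]
  refine ⟨t, t1, t2, fun x => ?_, fun y => ?_⟩
  · obtain ⟨y, hy⟩ := key {a | a ∈ T ∧ e a x ≤ ENNReal.ofReal (r a * t)} (fun _ h => h.1) (by
      refine mem_closure_of_frequently_of_tendsto (b := 𝓝[>] t) (f := id)
        (Eventually.frequently ?_) nhdsWithin_le_nhds
      refine Eventually.mono ((hT.eventually_all (p := fun a s => _)).2 fun a ha => ?_)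
        fun s hs => ⟨x, hs⟩
      by_cases h : e a x ≤ ENNReal.ofReal (r a * t)
      · filter_upwards [self_mem_nhdsWithin] with s hs
        exact ⟨fun _ => h.trans_lt (hm a (t0.trans hs) hs), fun h' => absurd ⟨ha, h⟩ h'⟩
      · filter_upwards [nhdsWithin_le_nhds
          ((isOpen_lt (hg a) continuous_const).mem_nhds (not_le.1 h))] with s hs
        exact ⟨fun h' => absurd h'.2 h, fun _ => hs⟩)
    exact ⟨y, fun a ha => by simp [(hy a ha).1, ha]⟩
  · obtain ⟨x, hx⟩ := key {a | a ∈ T ∧ e a y < ENNReal.ofReal (r a * t)} (fun _ h => h.1) (by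
      refine mem_closure_of_frequently_of_tendsto (b := 𝓝[<] t) (f := id)
        (Eventually.frequently ?_) nhdsWithin_le_nhds
      refine Eventually.mono ((hT.eventually_all (p := fun a s => _)).2 fun a ha => ?_)
        fun s hs => ⟨y, hs⟩
      by_cases h : e a y < ENNReal.ofReal (r a * t)
      · filter_upwards [nhdsWithin_le_nhds
          ((isOpen_lt continuous_const (hg a)).mem_nhds h)] with s hs
        exact ⟨fun _ => hs, fun h' => absurd ⟨ha, h⟩ h'⟩
      · filter_upwards [self_mem_nhdsWithin] with s hs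
        exact ⟨fun h' => absurd h'.2 h, fun _ => (hm a t0 hs).trans_le (not_lt.1 h)⟩)
    exact ⟨x, fun a ha => by simp [(hx a ha).2, ha]⟩

theorem thick : ThickStmt := by
  classical
  intro N F Q T C ρ hC hF hQ
  let C' : N → Set E := fun a => C a ∩ closedBall 0 10
  have hK : ∀ a, IsCompact (C' a) := fun a => (isCompact_closedBall _ _).inter_left (hC a).2
  have step : ∀ δ : ℝ, 0 < δ → ∀ p ∈ F, ∃ θ : ℝ, 0 < θ ∧ ∀ x,
      (∀ a ∈ p.1, x ∈ cthickening θ (C' a)) →
        ∃ b ∈ p.2, x ∈ C' b ∨ (x ∈ thickening δ (C' b) ∧ ∀ a ∈ p.1, ρ a < ρ b) := by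
    intro δ hδ p hp
    obtain ⟨hne, h | ⟨h, hρ⟩⟩ := hF p hp
    · obtain ⟨θ, hθ, H⟩ := meet_cthickening hK hne
        (O := ball 0 10 ∩ ⋃ b ∈ p.2, interior (C b))
        (isOpen_ball.inter (isOpen_biUnion fun _ _ => isOpen_interior)) fun x hx => by
          obtain ⟨h1, b, hb, h2⟩ := h x fun a ha => (hx a ha).1
          exact ⟨by simpa using h1, mem_biUnion hb h2⟩
      refine ⟨θ, hθ, fun x hx => ?_⟩
      obtain ⟨h1, h2⟩ := H x hx
      obtain ⟨b, hb, h3⟩ := mem_iUnion₂.1 h2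
      exact ⟨b, hb, Or.inl ⟨interior_subset h3, ball_subset_closedBall h1⟩⟩
    · obtain ⟨θ, hθ, H⟩ := meet_cthickening hK hne (O := ⋃ b ∈ p.2, thickening δ (C' b))
        (isOpen_biUnion fun _ _ => isOpen_thickening) fun x hx => by
          obtain ⟨b, hb, h2⟩ := h x fun a ha => (hx a ha).1
          obtain ⟨a, ha⟩ := List.exists_mem_of_ne_nil _ hne
          exact mem_biUnion hb (self_subset_thickening hδ _ ⟨h2, (hx a ha).2⟩)
      refine ⟨θ, hθ, fun x hx => ?_⟩
      obtain ⟨b, hb, h3⟩ := mem_iUnion₂.1 (H x hx)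
      exact ⟨b, hb, Or.inr ⟨h3, fun a ha => hρ a ha b hb⟩⟩
  have step' : ∀ δ : ℝ, ∃ θ : ℝ, 0 < δ → 0 < θ ∧ θ ≤ δ ∧ ∀ p ∈ F, ∀ x,
      (∀ a ∈ p.1, x ∈ cthickening (θ * 2) (C' a)) →
        ∃ b ∈ p.2, x ∈ C' b ∨ (x ∈ thickening δ (C' b) ∧ ∀ a ∈ p.1, ρ a < ρ b) := by
    intro δ
    by_cases hδ : 0 < δ
    swap
    · exact ⟨0, fun h => absurd h hδ⟩
    have h1 : ∀ᶠ θ in 𝓝[>] (0 : ℝ), ∀ p ∈ F, ∀ x,
        (∀ a ∈ p.1, x ∈ cthickening (θ * 2) (C' a)) →
          ∃ b ∈ p.2, x ∈ C' b ∨ (x ∈ thickening δ (C' b) ∧ ∀ a ∈ p.1, ρ a < ρ b) := by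
      refine (F.finite_toSet.eventually_all (p := fun p θ => _)).2 fun p hp => ?_
      obtain ⟨θ, hθ, H⟩ := step δ hδ p hp
      filter_upwards [Ioo_mem_nhdsGT (half_pos hθ)] with s hs x hx
      exact H x fun a ha => cthickening_mono (by linarith [hs.2]) _ (hx a ha)
    obtain ⟨θ, h2, h3⟩ := (h1.and (Ioo_mem_nhdsGT hδ)).exists
    exact ⟨θ, fun _ => ⟨h3.1, h3.2.le, h2⟩⟩
  choose ψ hψ using step'
  let d : ℕ → ℝ := fun j => ψ^[j] 1
  have ds : ∀ j, d (j + 1) = ψ (d j) := fun j => iterate_succ_apply' _ _ _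
  have d0 : ∀ j, 0 < d j := fun j => by
    induction j with
    | zero => exact one_pos
    | succ j ih => rw [ds]; exact (hψ _ ih).1
  have dm : Antitone d := antitone_nat_of_succ_le fun j => by rw [ds]; exact (hψ _ (d0 j)).2.1
  obtain ⟨m, hm⟩ := ((F.flatMap Prod.fst).map ρ).finite_toSet.bddAbove
  obtain ⟨t, t1, t2, g1, g2⟩ := generic_scale T (fun a x => infEDist x (C' a))
    (fun a => d (m + 1 - ρ a)) fun a => d0 _
  have hr : ∀ a, d (m + 1 - ρ a) ≤ d (m + 1 - ρ a) * t := fun a =>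
    le_mul_of_one_le_right (d0 _).le t1.le
  have hcv : ∀ a, Convex ℝ (C' a) := fun a => (hC a).1.inter (convex_closedBall _ _)
  have hi : ∀ a, interior (cthickening (d (m + 1 - ρ a) * t) (C' a)) =
      thickening (d (m + 1 - ρ a) * t) (C' a) := fun a =>
    interior_cthick (hcv a) ((d0 _).trans_le (hr a))
  refine ⟨fun a => cthickening (d (m + 1 - ρ a) * t) (C' a),
    fun a => ⟨(hcv a).cthickening _, (hK a).cthickening⟩,
    fun p hp x hx => ?_, fun r hr' => ?_, ?_, ?_⟩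
  · obtain ⟨a₀, ha₀, hmax⟩ := p.1.toFinset.exists_max_image ρ
      (by simpa using (hF p hp).1)
    rw [List.mem_toFinset] at ha₀
    have hk : ρ a₀ ≤ m := hm (List.mem_map_of_mem (List.mem_flatMap.2 ⟨p, hp, ha₀⟩))
    obtain ⟨b, hb, h⟩ := (hψ _ (d0 (m - ρ a₀))).2.2 p hp x fun a ha => by
      refine cthickening_mono ?_ _ (hx a ha)
      rw [← ds]
      have := hmax a (List.mem_toFinset.2 ha)
      exact mul_le_mul (dm (by omega)) t2.le (by linarith) (d0 _).le
    refine ⟨b, hb, h.elim (fun h => self_subset_cthickening _ h) fun h => ?_⟩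
    have := h.2 a₀ ha₀
    exact thickening_subset_cthickening_of_le ((dm (by omega)).trans (hr b)) _ h.1
  · obtain ⟨x, hx, hx'⟩ := hQ r hr'
    exact ⟨x, self_subset_cthickening _ ⟨hx, by simpa using hx'.le⟩⟩
  · simpa only [hi, mem_cthickening_iff, mem_thickening_iff_infEDist_lt] using g1
  · simpa only [hi, mem_cthickening_iff, mem_thickening_iff_infEDist_lt] using g2

end Pool.Agent.MP_082264_lc.Rb.Ts
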